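import Pool.Agent.X111.HP.Net
import Pool.Agent.X111.DL.Low

set_option autoImplicit false
set_option linter.unusedSectionVars false

/-! Boxes; discs; zeros of linear differential forms of zeta. -/

namespace Pool.Agent.X111.HP

open MeasureTheory ProbabilityTheory Filter Topology
open Pool.Agent.Y753.SHR
open Pool.Agent.X111.FL (jf iter_affine)
open Pool.Agent.X111.DL (zeta_an)

/-- the open box -/
def E1 (e R : ℝ) : Set ℂ := {z | -1 + 2 * e < z.re ∧ z.re < R ∧ |z.im| < R}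

/-- the closed box -/
def E2 (e R : ℝ) : Set ℂ := Set.Icc (-1 + e) (R + e) ×ℂ Set.Icc (-(R + e)) (R + e)

lemma mem_E2 {e R : ℝ} {z : ℂ} : z ∈ E2 e R ↔ -1 + e ≤ z.re ∧ z.re ≤ R + e ∧ |z.im| ≤ R + e := by
  unfold E2
  rw [Complex.mem_reProdIm, Set.mem_Icc, Set.mem_Icc, abs_le, and_assoc]

lemma box {e R : ℝ} (he : 0 < e) (he2 : 2 * e < 1) (hR : 0 < R) : Dm (E1 e R) (E2 e R) e e (1 + R + e) where
  op := by
    have h1 : IsOpen {z : ℂ | -1 + 2 * e < z.re} := isOpen_lt continuous_const Complex.continuous_re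
    have h2 : IsOpen {z : ℂ | z.re < R} := isOpen_lt Complex.continuous_re continuous_const
    have h3 : IsOpen {z : ℂ | |z.im| < R} := isOpen_lt (continuous_abs.comp Complex.continuous_im) continuous_const
    exact h1.inter (h2.inter h3)
  cpt := isCompact_Icc.reProdIm isCompact_Icc
  rpos := he
  mpos := he
  sub := by
    intro w hw z hz
    rw [Metric.mem_ball, dist_eq_norm] at hz
    have h1 := Complex.abs_re_le_norm (z - w)
    have h2 := Complex.abs_im_le_norm (z - w)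
    rw [Complex.sub_re] at h1
    rw [Complex.sub_im] at h2
    obtain ⟨h3, h4, h5⟩ := hw
    have h6 := abs_le.mp (h1.trans hz.le)
    rw [mem_E2]
    refine ⟨by linarith [h6.1], by linarith [h6.2], ?_⟩
    calc |z.im| = |(z.im - w.im) + w.im| := by ring_nf
      _ ≤ |z.im - w.im| + |w.im| := abs_add_le _ _
      _ ≤ R + e := by linarith
  lo := fun z hz => by linarith [(mem_E2.mp hz).1]
  hi := fun z hz => by linarith [(mem_E2.mp hz).2.1]
  im := fun z hz => by linarith [(mem_E2.mp hz).2.2]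
  zero := ⟨by simp; linarith, by simpa using hR, by simpa using hR⟩

lemma seg {e R : ℝ} (he2 : 2 * e < 1) (hR : 0 < R) : ∀ z ∈ E1 e R, segment ℝ (Complex.I * (z.im : ℂ)) z ⊆ E1 e R := by
  intro z hz p hp
  rw [segment_eq_image] at hp
  obtain ⟨t, ht, rfl⟩ := hp
  obtain ⟨h1, h2, h3⟩ := hz
  have hre : ((1 - t) • (Complex.I * (z.im : ℂ)) + t • z).re = t * z.re := by simp
  have him : ((1 - t) • (Complex.I * (z.im : ℂ)) + t • z).im = z.im := by simp; ring
  refine ⟨?_, ?_, ?_⟩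
  · rw [hre]
    rcases le_total 0 z.re with h | h
    · have := mul_nonneg ht.1 h
      linarith
    · nlinarith [ht.1, ht.2]
  · rw [hre]
    rcases le_total 0 z.re with h | h
    · nlinarith [ht.1, ht.2]
    · have := mul_nonneg_of_nonpos_of_nonpos (neg_nonpos.mpr ht.1) h
      nlinarith
  · rw [him]
    exact h3

lemma ex_box {Q : Set ℂ} (hQ : IsCompact Q) (hQ1 : ∀ z ∈ Q, -1 < z.re) : ∃ e R : ℝ, 0 < e ∧ 2 * e < 1 ∧ 0 < R ∧ Q ⊆ E1 e R := by
  rcases Q.eq_empty_or_nonempty with h | h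
  · exact ⟨1 / 4, 1, by norm_num, by norm_num, by norm_num, by rw [h]; exact Set.empty_subset _⟩
  · obtain ⟨B, hB⟩ := hQ.exists_bound_of_continuousOn (f := fun z : ℂ => z) continuousOn_id
    obtain ⟨z0, hz0, hmin⟩ := hQ.exists_isMinOn h Complex.continuous_re.continuousOn
    obtain ⟨e, he⟩ : ∃ e : ℝ, e = min (1 / 4) ((1 + z0.re) / 4) := ⟨_, rfl⟩
    have h0 := hQ1 z0 hz0
    have he0 : 0 < e := by rw [he]; exact lt_min (by norm_num) (by linarith)
    have he1 : e ≤ 1 / 4 := by rw [he]; exact min_le_left _ _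
    have he2 : e ≤ (1 + z0.re) / 4 := by rw [he]; exact min_le_right _ _
    refine ⟨e, |B| + 1, he0, by linarith, by positivity, fun z hz => ?_⟩
    have h1 := (Complex.abs_re_le_norm z).trans ((hB z hz).trans (le_abs_self B))
    have h2 := (Complex.abs_im_le_norm z).trans ((hB z hz).trans (le_abs_self B))
    have h3 : z0.re ≤ z.re := hmin hz
    exact ⟨by linarith, by linarith [(abs_le.mp h1).2], by linarith⟩

/-- a dense sequence of discs -/
noncomputable def ds : ℕ → ℂ × ℝ := TopologicalSpace.denseSeq (ℂ × ℝ)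

lemma ds_dense {P : Set (ℂ × ℝ)} (hP : IsOpen P) (hne : P.Nonempty) : ∃ n, ds n ∈ P :=
  (TopologicalSpace.denseRange_denseSeq (ℂ × ℝ)).exists_mem_open hP hne

open Classical in
/-- the excess of the minimum over a circle over the value at the centre -/
noncomputable def gU (U : Set ℂ) (c : ℕ → ℂ) (N : ℕ) (n : ℕ) (f : ℂ → ℂ) : ℝ :=
  if Metric.closedBall (ds n).1 (ds n).2 ⊆ U ∧ 0 < (ds n).2 then mq (Metric.sphere (ds n).1 (ds n).2) c N f - ‖Lc c N f (ds n).1‖ else 0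

/-- the maximum of the first excesses -/
noncomputable def GU (U : Set ℂ) (c : ℕ → ℂ) (N : ℕ) : ℕ → (ℂ → ℂ) → ℝ
  | 0, _ => 0
  | n + 1, f => max (GU U c N n f) (gU U c N n f)

lemma GU_nn (U : Set ℂ) (c : ℕ → ℂ) (N : ℕ) (n : ℕ) (f : ℂ → ℂ) : 0 ≤ GU U c N n f := by
  induction n with
  | zero => exact le_rfl
  | succ n ih => exact ih.trans (le_max_left _ _)

lemma GU_pos {U : Set ℂ} {c : ℕ → ℂ} {N : ℕ} {n : ℕ} {f : ℂ → ℂ} (h : 0 < GU U c N n f) : ∃ i, 0 < gU U c N i f := by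
  induction n with
  | zero => exact absurd h (lt_irrefl _)
  | succ n ih =>
    rcases lt_max_iff.mp (show 0 < max (GU U c N n f) (gU U c N n f) from h) with h1 | h1
    · exact ih h1
    · exact ⟨n, h1⟩

lemma GU_ge {U : Set ℂ} {c : ℕ → ℂ} {N : ℕ} {i n : ℕ} (f : ℂ → ℂ) (h : i < n) : gU U c N i f ≤ GU U c N n f := by
  induction n with
  | zero => exact absurd h (Nat.not_lt_zero _)
  | succ n ih =>
    rcases Nat.lt_succ_iff_lt_or_eq.mp h with h1 | h1
    · exact (ih h1).trans (le_max_left _ _)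
    · rw [h1]
      exact le_max_right _ _

section

variable {D : Set ℂ}

lemma ApD_gU (hD : IsOpen D) (h0 : (0:ℂ) ∈ D) (hst : ∀ z ∈ D, segment ℝ (Complex.I * (z.im : ℂ)) z ⊆ D) {U : Set ℂ} (hU : U ⊆ D) (c : ℕ → ℂ) (N : ℕ)
    (n : ℕ) : ApD D 1 (gU U c N n) := by
  unfold gU
  split_ifs with h
  · have hs : Metric.sphere (ds n).1 (ds n).2 ⊆ D := Metric.sphere_subset_closedBall.trans (h.1.trans hU)
    have hc : (ds n).1 ∈ D := hU (h.1 (Metric.mem_closedBall_self h.2.le))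
    exact ApD_two h0 (ApD_mq hD h0 hst c N (isCompact_sphere _ _) (NormedSpace.sphere_nonempty.mpr h.2.le) hs)
      (ApD_norm (LA_Lc hD h0 hst c N hc)) (φ := fun a b => a - b) (by fun_prop) (fun c a b _ => by ring)
  · exact ApD_zero h0

lemma ApD_GU (hD : IsOpen D) (h0 : (0:ℂ) ∈ D) (hst : ∀ z ∈ D, segment ℝ (Complex.I * (z.im : ℂ)) z ⊆ D) {U : Set ℂ} (hU : U ⊆ D) (c : ℕ → ℂ) (N : ℕ)
    (n : ℕ) : ApD D 1 (GU U c N n) := by
  induction n with
  | zero => exact ApD_zero h0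
  | succ n ih =>
    exact ApD_two h0 ih (ApD_gU hD h0 hst hU c N n) (φ := fun a b => max a b) (by fun_prop) (fun c a b hc => (mul_max_of_nonneg a b hc).symm)

/-- a positive excess gives a zero -/
lemma zero_of_gU (hD : IsOpen D) {U : Set ℂ} (hU : U ⊆ D) {c : ℕ → ℂ} {N : ℕ} {f : ℂ → ℂ} (hf : DifferentiableOn ℂ f D) {n : ℕ}
    (h : 0 < gU U c N n f) : ∃ z ∈ U, Lc c N f z = 0 := by
  unfold gU at h
  split_ifs at h with h1
  · by_contra hcon
    push Not at hcon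
    have hsub : Metric.closedBall (ds n).1 (ds n).2 ⊆ D := h1.1.trans hU
    have hd : DifferentiableOn ℂ (Lc c N f) D := (Lc_an hD c N hf).differentiableOn
    have hinv : DiffContOnCl ℂ (fun z => (Lc c N f z)⁻¹) (Metric.ball (ds n).1 (ds n).2) :=
      ((hd.mono hU).fun_inv hcon).diffContOnCl_ball h1.1
    have hc : (ds n).1 ∈ U := h1.1 (Metric.mem_closedBall_self h1.2.le)
    have h2 : 0 < ‖Lc c N f (ds n).1‖ := norm_pos_iff.mpr (hcon _ hc)
    obtain ⟨μ, hμ⟩ : ∃ μ : ℝ, μ = mq (Metric.sphere (ds n).1 (ds n).2) c N f := ⟨_, rfl⟩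
    rw [← hμ] at h
    have hμ0 : 0 < μ := by linarith
    have h3 := Complex.norm_le_of_forall_mem_frontier_norm_le (U := Metric.ball (ds n).1 (ds n).2) Metric.isBounded_ball hinv (C := μ⁻¹) (fun z hz => by
      rw [frontier_ball _ h1.2.ne'] at hz
      rw [norm_inv]
      refine inv_anti₀ hμ0 ?_
      rw [hμ]
      exact mq_le c N f hz) (z := (ds n).1) (subset_closure (Metric.mem_ball_self h1.2))
    rw [norm_inv] at h3
    have h4 := (inv_le_inv₀ h2 hμ0).mp h3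
    linarith
  · exact absurd h (lt_irrefl _)

/-- an isolated zero gives a positive excess -/
lemma gU_of_zero (hD : IsOpen D) {U : Set ℂ} (hUo : IsOpen U) (hU : U ⊆ D) {c : ℕ → ℂ} {N : ℕ} {f : ℂ → ℂ} (hf : DifferentiableOn ℂ f D) {z1 : ℂ}
    (hz1 : z1 ∈ U) (h0 : Lc c N f z1 = 0) (hne : ¬ ∀ᶠ z in 𝓝 z1, Lc c N f z = 0) : ∃ n, 0 < gU U c N n f := by
  have han := (Lc_an hD c N hf) z1 (hU hz1)
  have hpun : ∀ᶠ z in 𝓝[≠] z1, Lc c N f z ≠ 0 := by
    rcases han.eventually_eq_zero_or_eventually_ne_zero with h | h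
    · exact absurd h hne
    · exact h
  rw [eventually_nhdsWithin_iff] at hpun
  obtain ⟨r, hr, hr2⟩ := Metric.nhds_basis_closedBall.mem_iff.mp (Filter.inter_mem (hUo.mem_nhds hz1) hpun)
  obtain ⟨ρ, hρ⟩ : ∃ ρ : ℝ, ρ = r / 2 := ⟨_, rfl⟩
  have hρ0 : 0 < ρ := by rw [hρ]; positivity
  have hrρ : r = 2 * ρ := by rw [hρ]; ring
  rw [hrρ] at hr2
  have hcont : ContinuousOn (Lc c N f) D := (Lc_an hD c N hf).continuousOn
  obtain ⟨A, hA⟩ : ∃ A : Set ℂ, A = Metric.closedBall z1 (2 * ρ) \ Metric.ball z1 (ρ / 4) := ⟨_, rfl⟩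
  have hAc : IsCompact A := by rw [hA]; exact (isCompact_closedBall _ _).diff Metric.isOpen_ball
  have hAD : A ⊆ D := by
    rw [hA]
    exact fun z hz => hU (hr2 hz.1).1
  have hAne : A.Nonempty := by
    refine ⟨z1 + ρ, ?_⟩
    rw [hA]
    have e1 : dist (z1 + (ρ : ℂ)) z1 = ρ := by
      rw [dist_eq_norm, add_sub_cancel_left, Complex.norm_real, Real.norm_of_nonneg hρ0.le]
    refine ⟨?_, ?_⟩
    · rw [Metric.mem_closedBall, e1]
      linarith
    · rw [Metric.mem_ball, e1]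
      linarith
  obtain ⟨w, hw, hmin⟩ := hAc.exists_isMinOn hAne (hcont.mono hAD).norm
  obtain ⟨μ, hμ⟩ : ∃ μ : ℝ, μ = ‖Lc c N f w‖ := ⟨_, rfl⟩
  have hμ0 : 0 < μ := by
    rw [hμ, norm_pos_iff]
    rw [hA] at hw
    refine (hr2 hw.1).2 ?_
    intro h1
    rw [Set.mem_singleton_iff] at h1
    refine hw.2 ?_
    rw [h1]
    exact Metric.mem_ball_self (by positivity)
  have hμA : ∀ z ∈ A, μ ≤ ‖Lc c N f z‖ := fun z hz => by rw [hμ]; exact hmin hz
  have hcz : ∀ᶠ z in 𝓝 z1, ‖Lc c N f z‖ < μ := by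
    have h1 := han.continuousAt.norm
    refine h1.eventually (gt_mem_nhds ?_)
    show ‖Lc c N f z1‖ < μ
    rw [h0, norm_zero]
    exact hμ0
  obtain ⟨η, hη, hη2⟩ := Metric.eventually_nhds_iff_ball.mp hcz
  obtain ⟨θ, hθ⟩ : ∃ θ : ℝ, θ = min η (ρ / 4) := ⟨_, rfl⟩
  have hθ0 : 0 < θ := by rw [hθ]; exact lt_min hη (by positivity)
  have hθ1 : θ ≤ η := by rw [hθ]; exact min_le_left _ _
  have hθ2 : θ ≤ ρ / 4 := by rw [hθ]; exact min_le_right _ _
  obtain ⟨n, hn⟩ := ds_dense (P := Metric.ball z1 θ ×ˢ Set.Ioo (ρ / 2) ρ) (Metric.isOpen_ball.prod isOpen_Ioo)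
    ⟨(z1, 3 * ρ / 4), Metric.mem_ball_self hθ0, by constructor <;> linarith⟩
  refine ⟨n, ?_⟩
  obtain ⟨z, s, hz⟩ : ∃ (z : ℂ) (s : ℝ), ds n = (z, s) := ⟨_, _, rfl⟩
  rw [hz] at hn
  obtain ⟨hn1, hn2⟩ := hn
  simp only at hn1 hn2
  rw [Metric.mem_ball] at hn1
  have hs0 : 0 < s := by linarith [hn2.1]
  have hsub : Metric.closedBall z s ⊆ Metric.closedBall z1 (2 * ρ) := by
    intro y hy
    rw [Metric.mem_closedBall] at hy ⊢
    linarith [dist_triangle y z z1, hn2.2]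
  have hcond : Metric.closedBall (ds n).1 (ds n).2 ⊆ U ∧ 0 < (ds n).2 := by
    rw [hz]
    exact ⟨fun y hy => (hr2 (hsub hy)).1, hs0⟩
  unfold gU
  rw [if_pos hcond, hz]
  simp only
  have h1 : ‖Lc c N f z‖ < μ := hη2 z (by rw [Metric.mem_ball]; linarith)
  have hne2 : Nonempty (Metric.sphere z s) := (NormedSpace.sphere_nonempty.mpr hs0.le).to_subtype
  have h2 : μ ≤ mq (Metric.sphere z s) c N f := by
    refine le_ciInf fun y => hμA y ?_
    have hy := y.2
    rw [Metric.mem_sphere] at hy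
    rw [hA]
    refine ⟨hsub (Metric.sphere_subset_closedBall y.2), ?_⟩
    rw [Metric.mem_ball]
    have h3 := dist_triangle (y : ℂ) z1 z
    rw [dist_comm z1 z] at h3
    linarith [hn2.1]
  linarith

end

end Pool.Agent.X111.HP
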