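import Pool.Agent.X111.FL.Jet

set_option autoImplicit false
set_option linter.unusedSectionVars false

/-! Moments of homogeneous functionals of zeta on compact subsets of the half plane to the right of the critical line. -/

namespace Pool.Agent.X111.HP

open MeasureTheory ProbabilityTheory Filter Topology
open Pool.Agent.Y755
open Pool.Agent.Y753.NL
open Pool.Agent.Y753.SHR
open Pool.Agent.H306R2 (aF aF_pos)
open Pool.Agent.X111.JD (zc zc_norm zc_cont)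
open Pool.Agent.X111.DM (unif_up)
open Pool.Agent.X111.FL

/-- a domain and a compact set around it, in the half plane `Re z > -1` -/
structure Dm (D K : Set ℂ) (r m M : ℝ) : Prop where
  op : IsOpen D
  cpt : IsCompact K
  rpos : 0 < r
  mpos : 0 < m
  sub : ∀ w ∈ D, Metric.ball w r ⊆ K
  lo : ∀ z ∈ K, m ≤ 1 + z.re
  hi : ∀ z ∈ K, 1 + z.re ≤ M
  im : ∀ z ∈ K, |z.im| ≤ M
  zero : (0:ℂ) ∈ D

section

variable {D K : Set ℂ} {r m M : ℝ}

lemma Dm.DK (h : Dm D K r m M) : D ⊆ K := fun w hw => h.sub w hw (Metric.mem_ball_self h.rpos)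

lemma Dm.Mpos (h : Dm D K r m M) : 0 < M := lt_of_lt_of_le (lt_of_lt_of_le h.mpos (h.lo 0 (h.DK h.zero))) (h.hi 0 (h.DK h.zero))

lemma jf_ne (h : Dm D K r m M) {δ : ℝ} (hδ0 : 0 < δ) (hδ : δ * M < 1 / 2) {z : ℂ} (hz : z ∈ K) (t : ℝ) :
    (1 / 2 + δ + t * Complex.I + δ * z : ℂ) ≠ 1 := by
  intro h0
  have h1 := congrArg Complex.re h0
  simp at h1
  have h2 := h.hi z hz
  nlinarith

lemma jf_cont (h : Dm D K r m M) {δ : ℝ} (hδ0 : 0 < δ) (hδ : δ * M < 1 / 2) : ContinuousOn (fun x : ℂ × ℝ => jf δ x.2 x.1) (K ×ˢ Set.univ) := by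
  rintro ⟨z, t⟩ ⟨hz, _⟩
  refine ContinuousAt.continuousWithinAt ?_
  have h2 : ContinuousAt (fun s : ℂ => riemannZeta s) (1 / 2 + δ + t * Complex.I + δ * z) :=
    (differentiableAt_riemannZeta (jf_ne h hδ0 hδ hz t)).continuousAt
  exact h2.comp (f := fun x : ℂ × ℝ => (1 / 2 + δ + x.2 * Complex.I + δ * x.1 : ℂ)) (x := (z, t)) (by fun_prop)

lemma jf_contz (h : Dm D K r m M) {δ : ℝ} (hδ0 : 0 < δ) (hδ : δ * M < 1 / 2) (t : ℝ) : ContinuousOn (jf δ t) K := by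
  have h1 := (jf_cont h hδ0 hδ).comp (f := fun z : ℂ => (z, t)) (by fun_prop) (s := K) (fun z hz => ⟨hz, Set.mem_univ _⟩)
  exact h1

lemma jf_diff (h : Dm D K r m M) {δ : ℝ} (hδ0 : 0 < δ) (hδ : δ * M < 1 / 2) (t : ℝ) {U : Set ℂ} (hU : U ⊆ K) : DifferentiableOn ℂ (jf δ t) U := by
  intro z hz
  have h2 : DifferentiableAt ℂ riemannZeta (1 / 2 + δ + t * Complex.I + δ * z) := differentiableAt_riemannZeta (jf_ne h hδ0 hδ (hU hz) t)
  have h3 : DifferentiableAt ℂ (fun z : ℂ => (1 / 2 + δ + t * Complex.I + δ * z : ℂ)) z := by fun_prop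
  exact (h2.comp z h3).differentiableWithinAt

/-- the area integral -/
noncomputable def Ar (K : Set ℂ) (k δ t : ℝ) : ℝ := ∫ z in K, ‖jf δ t z‖ ^ (2 * k)

lemma Ar_int (h : Dm D K r m M) {k : ℝ} (hk : 0 < k) {δ : ℝ} (hδ0 : 0 < δ) (hδ : δ * M < 1 / 2) (t : ℝ) : IntegrableOn (fun z => ‖jf δ t z‖ ^ (2 * k)) K := by
  refine ContinuousOn.integrableOn_compact h.cpt ?_
  exact (jf_contz h hδ0 hδ t).norm.rpow_const fun z _ => Or.inr (by positivity)

lemma Ar_nonneg (K : Set ℂ) (k δ t : ℝ) : 0 ≤ Ar K k δ t := integral_nonneg fun z => Real.rpow_nonneg (norm_nonneg _) _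

/-- the supremum bound -/
lemma sup_le (h : Dm D K r m M) {k : ℝ} (hk : 0 < k) {δ : ℝ} (hδ0 : 0 < δ) (hδ : δ * M < 1 / 2) (t : ℝ) {w : ℂ} (hw : w ∈ D) :
    ‖jf δ t w‖ ^ (2 * k) ≤ (Real.pi * r ^ 2)⁻¹ * Ar K k δ t := by
  have hr := h.rpos
  have h1 := Pool.Agent.H402R2.SubMean.rpow_mul_le_lintegral (g := jf δ t) (w := w) (ρ := r) (p := 2 * k) hr (by positivity)
    (jf_diff h hδ0 hδ t (h.sub w hw))
  have h2 : ∫⁻ z in Metric.ball w r, ‖jf δ t z‖ₑ ^ (2 * k) ≤ ∫⁻ z in K, ‖jf δ t z‖ₑ ^ (2 * k) := lintegral_mono_set (h.sub w hw)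
  have h3 : ∫⁻ z in K, ‖jf δ t z‖ₑ ^ (2 * k) = ENNReal.ofReal (Ar K k δ t) := by
    unfold Ar
    rw [ofReal_integral_eq_lintegral_ofReal (Ar_int h hk hδ0 hδ t) (Eventually.of_forall fun z => Real.rpow_nonneg (norm_nonneg _) _)]
    refine lintegral_congr fun z => ?_
    rw [← ofReal_norm, ENNReal.ofReal_rpow_of_nonneg (norm_nonneg _) (by positivity)]
  rw [h3] at h2
  have h4 := (ENNReal.ofReal_le_ofReal_iff (Ar_nonneg K k δ t)).mp (h1.trans h2)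
  have hpi := Real.pi_pos
  rw [inv_mul_eq_div, le_div_iff₀ (by positivity)]
  exact h4

/-- the mean values of the area integrals -/
theorem Ar_mean (h : Dm D K r m M) {k : ℝ} (hk : 0 < k) (hk2 : k ≤ 2) {δ : ℝ → ℝ} (hδ : Tendsto δ atTop (𝓝 0))
    (hδL : Tendsto (fun T => δ T * Real.log T) atTop atTop) :
    ∃ C : ℝ, 0 ≤ C ∧ ∀ᶠ T : ℝ in atTop, IntegrableOn (fun t => Ar K k (δ T) t) (Set.Icc 0 T) ∧
      (2 * δ T) ^ (k ^ 2) / T * ∫ t in Set.Icc 0 T, Ar K k (δ T) t ≤ C := by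
  obtain ⟨C, hC, h1⟩ := unif_up hk hk2 hδ hδL (m := m) M h.mpos
  have hMδ : Tendsto (fun T => δ T * M) atTop (𝓝 0) := by
    have := hδ.mul_const M
    rwa [zero_mul] at this
  refine ⟨(volume K).toReal * C, by positivity, ?_⟩
  filter_upwards [h1, pos_path hδL, hMδ.eventually (gt_mem_nhds (show (0:ℝ) < 1 / 2 by norm_num)), eventually_gt_atTop 0] with T h1 hd hd2 hT
  obtain ⟨c, hc⟩ : ∃ c : ℝ, c = (2 * δ T) ^ (k ^ 2) / T := ⟨_, rfl⟩
  have hc0 : 0 ≤ c := by rw [hc]; positivity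
  have hcont : ContinuousOn (fun x : ℂ × ℝ => ‖jf (δ T) x.2 x.1‖ ^ (2 * k)) (K ×ˢ Set.Icc 0 T) :=
    ((jf_cont h hd hd2).mono (Set.prod_mono_right (Set.subset_univ _))).norm.rpow_const fun z _ => Or.inr (by positivity)
  have hprod : Integrable (fun x : ℂ × ℝ => ‖jf (δ T) x.2 x.1‖ ^ (2 * k)) ((volume.restrict K).prod (volume.restrict (Set.Icc 0 T))) := by
    rw [Measure.prod_restrict]
    exact hcont.integrableOn_compact (h.cpt.prod isCompact_Icc)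
  have hsw : ∫ t in Set.Icc 0 T, Ar K k (δ T) t = ∫ z in K, ∫ t in Set.Icc 0 T, ‖jf (δ T) t z‖ ^ (2 * k) := by
    unfold Ar
    exact (integral_integral_swap (f := fun (z : ℂ) (t : ℝ) => ‖jf (δ T) t z‖ ^ (2 * k)) hprod).symm
  refine ⟨?_, ?_⟩
  · exact hprod.swap.integral_prod_left
  · rw [← hc, hsw, ← integral_const_mul]
    have hfin : volume K < ⊤ := h.cpt.measure_lt_top
    have h2 : ∫ z in K, c * ∫ t in Set.Icc 0 T, ‖jf (δ T) t z‖ ^ (2 * k) ≤ ∫ _z in K, C := by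
      refine setIntegral_mono_on (hprod.integral_prod_left.const_mul c) (integrableOn_const hfin.ne) h.cpt.measurableSet fun z hz => ?_
      have h5 := h1 (1 + z) (by rw [Complex.add_re, Complex.one_re]; exact h.lo z hz) (by rw [Complex.add_re, Complex.one_re]; exact h.hi z hz)
        (by rw [Complex.add_im, Complex.one_im, zero_add]; exact h.im z hz)
      refine le_trans (le_of_eq ?_) h5
      rw [hc, mul_one_div]
      congr 1
      refine integral_congr_ae (Eventually.of_forall fun t => ?_)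
      show ‖jf (δ T) t z‖ ^ (2 * k) = ‖riemannZeta (1 / 2 + (1 + z) * δ T + Complex.I * t)‖ ^ (2 * k)
      unfold jf
      congr 3
      ring
    refine h2.trans (le_of_eq ?_)
    rw [setIntegral_const, smul_eq_mul, measureReal_def]

lemma rad (h : Dm D K r m M) : ∃ s : ℝ, 0 ≤ s ∧ s < 1 ∧ ∀ z ∈ K, ‖z / (z + 2)‖ ≤ s := by
  have hne : K.Nonempty := ⟨0, h.DK h.zero⟩
  have hc : ContinuousOn (fun z : ℂ => ‖z / (z + 2)‖) K := by
    refine ContinuousOn.norm (continuousOn_id.div (by fun_prop) fun z hz h0 => ?_)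
    have := congrArg Complex.re h0
    have h2 := h.lo z hz
    have h3 := h.mpos
    simp at this
    linarith
  obtain ⟨z0, hz0, hmax⟩ := h.cpt.exists_isMaxOn hne hc
  refine ⟨‖z0 / (z0 + 2)‖, norm_nonneg _, wd_norm (by linarith [h.lo z0 hz0, h.mpos]), fun z hz => hmax hz⟩

lemma fi_diff (h : Dm D K r m M) (k : ℝ) {ω : ℕ → ℝ × ℝ} (hω : Gd ω) : DifferentiableOn ℂ (fi k ω) K := by
  intro z hz
  have h1 := h.lo z hz
  have h0 := h.mpos
  have h2 : DifferentiableAt ℂ (fun z : ℂ => (1 + z / 2) ^ (-(k : ℂ))) z := by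
    refine DifferentiableAt.cpow (by fun_prop) (by fun_prop) (Or.inl ?_)
    simp
    linarith
  have h3 : DifferentiableAt ℂ (fun z : ℂ => z / (z + 2)) z := by
    refine differentiableAt_id.div (by fun_prop) ?_
    intro h5
    have := congrArg Complex.re h5
    simp at this
    linarith
  have h4 : DifferentiableAt ℂ (gf ω) (z / (z + 2)) := by
    refine (gf_diff hω).differentiableAt (Metric.isOpen_ball.mem_nhds ?_)
    rw [mem_ball_zero_iff]
    exact wd_norm (by linarith)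
  exact (h2.mul (h4.comp z h3).cexp).differentiableWithinAt

lemma fi_norm (h : Dm D K r m M) {k : ℝ} (hk : 0 < k) {ω : ℕ → ℝ × ℝ} (hω : Gd ω) {s : ℝ} (hs0 : 0 ≤ s) (hs1 : s < 1) (hs : ∀ z ∈ K, ‖z / (z + 2)‖ ≤ s)
    {z : ℂ} (hz : z ∈ K) : ‖fi k ω z‖ ≤ (1 / 2) ^ (-k) * Real.exp (mj s ω) := by
  unfold fi
  rw [norm_mul]
  have h1 := h.lo z hz
  have h0 := h.mpos
  refine mul_le_mul ?_ ?_ (norm_nonneg _) (by positivity)
  · have e1 : (-(k : ℂ)) = ((-k : ℝ) : ℂ) := by push_cast; rfl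
    rw [e1, Complex.norm_cpow_real]
    refine Real.rpow_le_rpow_of_nonpos (by norm_num) ?_ (by linarith)
    have h2 := Complex.re_le_norm (1 + z / 2)
    refine le_trans ?_ h2
    simp
    linarith
  · rw [Complex.norm_exp]
    exact Real.exp_le_exp.mpr ((Complex.re_le_norm _).trans (gf_norm hω hs0 hs1 (hs z hz)))

end

/-- approximable homogeneous functionals of degree `d` -/
def ApD (D : Set ℂ) (d : ℝ) (Φ : (ℂ → ℂ) → ℝ) : Prop := ∀ ε : ℝ, 0 < ε → ∃ (ι : Type) (_ : Fintype ι) (h : ι → ℝ) (F : (ι → ℂ) → ℝ),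
  Continuous F ∧ (∀ (c : ℂ) (v : ι → ℂ), F (fun j => c * v j) = ‖c‖ ^ d * F v) ∧ (∀ j, Complex.I * (h j : ℂ) ∈ D) ∧
  ∀ (f : ℂ → ℂ) (S : ℝ), DifferentiableOn ℂ f D → (∀ z ∈ D, ‖f z‖ ≤ S) →
    |Φ f - F (fun j => f (Complex.I * h j))| ≤ ε * S ^ d

lemma ApD.fin {D : Set ℂ} {d : ℝ} {Φ : (ℂ → ℂ) → ℝ} (hΦ : ApD D d Φ) : ∀ ε : ℝ, 0 < ε → ∃ (n : ℕ) (h : Fin n → ℝ) (F : (Fin n → ℂ) → ℝ),
    Continuous F ∧ (∀ (c : ℂ) (v : Fin n → ℂ), F (fun j => c * v j) = ‖c‖ ^ d * F v) ∧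
    ∀ (f : ℂ → ℂ) (S : ℝ), DifferentiableOn ℂ f D → (∀ z ∈ D, ‖f z‖ ≤ S) → |Φ f - F (fun j => f (Complex.I * h j))| ≤ ε * S ^ d := by
  intro ε hε
  obtain ⟨ι, hι, h, F, h1, h2, -, h3⟩ := hΦ ε hε
  refine ⟨Fintype.card ι, fun j => h ((Fintype.equivFin ι).symm j), fun v => F (fun i => v (Fintype.equivFin ι i)), ?_, ?_, ?_⟩
  · exact h1.comp (continuous_pi fun i => continuous_apply _)
  · intro c v
    exact h2 c _
  · intro f S hf hS
    have h4 := h3 f S hf hS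
    simp only [Equiv.symm_apply_apply]
    exact h4

section

variable {D K : Set ℂ} {r m M k : ℝ} {Φ : (ℂ → ℂ) → ℝ}

/-- the limit is integrable -/
lemma Phi_int (hD : Dm D K r m M) (hk : 0 < k) (hΦ : ApD D (2 * k) Φ) : Integrable (fun ω => Φ (fi k ω)) PG ∧
    ∃ M : ℝ, 0 ≤ M ∧ ∀ ε : ℝ, ∀ (n : ℕ) (h : Fin n → ℝ) (F : (Fin n → ℂ) → ℝ), Continuous F →
      (∀ (c : ℂ) (v : Fin n → ℂ), F (fun j => c * v j) = ‖c‖ ^ (2 * k) * F v) →
      (∀ (f : ℂ → ℂ) (S : ℝ), DifferentiableOn ℂ f D → (∀ z ∈ D, ‖f z‖ ≤ S) → |Φ f - F (fun j => f (Complex.I * h j))| ≤ ε * S ^ (2 * k)) →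
      |∫ ω, F (fun j => Complex.exp (lgv k h ω j)) ∂PG - ∫ ω, Φ (fi k ω) ∂PG| ≤ ε * M := by
  obtain ⟨s, hs0, hs1, hs⟩ := rad hD
  obtain ⟨G, hG⟩ : ∃ G : (ℕ → ℝ × ℝ) → ℝ, G = fun ω => ((1 / 2) ^ (-k) * Real.exp (mj s ω)) ^ (2 * k) := ⟨_, rfl⟩
  have hGi : Integrable G PG := by
    refine ((mj_exp hs0 hs1 (2 * k)).const_mul (((1 / 2 : ℝ) ^ (-k)) ^ (2 * k))).congr (Eventually.of_forall fun ω => ?_)
    rw [hG]
    simp only
    rw [Real.mul_rpow (by positivity) (Real.exp_pos _).le, ← Real.exp_mul]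
    congr 2
    ring
  have hG0 : ∀ ω, 0 ≤ G ω := fun ω => by rw [hG]; positivity
  have key : ∀ ε : ℝ, ∀ (n : ℕ) (h : Fin n → ℝ) (F : (Fin n → ℂ) → ℝ),
      (∀ (f : ℂ → ℂ) (S : ℝ), DifferentiableOn ℂ f D → (∀ z ∈ D, ‖f z‖ ≤ S) → |Φ f - F (fun j => f (Complex.I * h j))| ≤ ε * S ^ (2 * k)) →
      ∀ ω, Gd ω → |Φ (fi k ω) - F (fun j => Complex.exp (lgv k h ω j))| ≤ ε * G ω := by
    intro ε n h F hF ω hω
    have h1 := hF (fi k ω) ((1 / 2) ^ (-k) * Real.exp (mj s ω)) ((fi_diff hD k hω).mono hD.DK) fun z hz => fi_norm hD hk hω hs0 hs1 hs (hD.DK hz)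
    simp_rw [fi_line] at h1
    rw [hG]
    exact h1
  have hi : Integrable (fun ω => Φ (fi k ω)) PG := by
    choose n h F hFc hFh hFa using fun m : ℕ => hΦ.fin (1 / ((m : ℝ) + 1)) (by positivity)
    have hmeas : AEStronglyMeasurable (fun ω => Φ (fi k ω)) PG := by
      refine aestronglyMeasurable_of_tendsto_ae atTop (f := fun m ω => F m (fun j => Complex.exp (lgv k (h m) ω j))) (fun m => ?_) ?_
      · obtain ⟨C, hC0, hC⟩ := hom_bd hk (hFc m) (hFh m)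
        obtain ⟨g, -, -, hg⟩ := lim_int hk (h m) (hFc m) hC0 hC
        exact hg
      · filter_upwards [Gd_ae] with ω hω
        rw [tendsto_iff_norm_sub_tendsto_zero]
        have h1 : Tendsto (fun m : ℕ => 1 / ((m : ℝ) + 1) * G ω) atTop (𝓝 0) := by
          have := (tendsto_one_div_add_atTop_nhds_zero_nat (𝕜 := ℝ)).mul_const (G ω)
          rwa [zero_mul] at this
        refine squeeze_zero (fun _ => norm_nonneg _) (fun m => ?_) h1
        rw [norm_sub_rev, Real.norm_eq_abs]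
        exact key _ _ _ _ (hFa m) ω hω
    obtain ⟨C, hC0, hC⟩ := hom_bd hk (hFc 0) (hFh 0)
    obtain ⟨g, hg1, hg2, -⟩ := lim_int hk (h 0) (hFc 0) hC0 hC
    refine (hg1.add (hGi.const_mul (1 / (((0 : ℕ) : ℝ) + 1)))).mono hmeas ?_
    filter_upwards [Gd_ae, hg2] with ω hω h2
    have h3 := key _ _ _ _ (hFa 0) ω hω
    refine le_trans ?_ (le_abs_self _)
    rw [Pi.add_apply, Real.norm_eq_abs]
    have h4 := abs_sub_abs_le_abs_sub (Φ (fi k ω)) (F 0 fun j => Complex.exp (lgv k (h 0) ω j))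
    linarith
  refine ⟨hi, ∫ ω, G ω ∂PG, integral_nonneg hG0, fun ε n h F hFc hFh hFa => ?_⟩
  obtain ⟨C, hC0, hC⟩ := hom_bd hk hFc hFh
  obtain ⟨g, hg1, hg2, hg3⟩ := lim_int hk h hFc hC0 hC
  have hFi : Integrable (fun ω => F (fun j => Complex.exp (lgv k h ω j))) PG :=
    hg1.mono hg3 (by filter_upwards [hg2] with ω h2; exact h2.trans (le_abs_self _))
  rw [← integral_sub hFi hi, ← integral_const_mul, ← Real.norm_eq_abs]
  refine norm_integral_le_of_norm_le (hGi.const_mul ε) ?_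
  filter_upwards [Gd_ae] with ω hω
  rw [norm_sub_rev, Real.norm_eq_abs]
  exact key _ _ _ _ hFa ω hω

/-- **Homogeneous functionals of zeta on compact subsets of the half plane.** -/
theorem main (hD : Dm D K r m M) (hk : 0 < k) (hk2 : k ≤ 2) {δ : ℝ → ℝ} (hδ : Tendsto δ atTop (𝓝 0))
    (hδL : Tendsto (fun T => δ T * Real.log T) atTop atTop) (hΦ : ApD D (2 * k) Φ) :
    (∀ᶠ T in atTop, IntegrableOn (fun t => Φ (jf (δ T) t)) (Set.Icc 0 T)) ∧
    Tendsto (fun T => (2 * δ T) ^ (k ^ 2) / T * ∫ t in Set.Icc 0 T, Φ (jf (δ T) t)) atTop (𝓝 (aF k * ∫ ω, Φ (fi k ω) ∂PG)) := by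
  obtain ⟨-, B, hB0, hB⟩ := Phi_int hD hk hΦ
  obtain ⟨C, hC0, hC⟩ := Ar_mean hD hk hk2 hδ hδL
  have ha := aF_pos hk
  have hpi := Real.pi_pos
  have hr := hD.rpos
  obtain ⟨P, hP⟩ : ∃ P : ℝ, P = (Real.pi * r ^ 2)⁻¹ := ⟨_, rfl⟩
  have hP0 : 0 < P := by rw [hP]; positivity
  have hMδ : Tendsto (fun T => δ T * M) atTop (𝓝 0) := by
    have := hδ.mul_const M
    rwa [zero_mul] at this
  -- the error
  have hgen : ∀ᶠ T in atTop, (∀ t, 0 ≤ P * Ar K k (δ T) t) ∧ IntegrableOn (fun t => Ar K k (δ T) t) (Set.Icc 0 T) ∧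
      (2 * δ T) ^ (k ^ 2) / T * (∫ t in Set.Icc 0 T, Ar K k (δ T) t) ≤ C ∧
      (∀ (ε' : ℝ) (n' : ℕ) (h' : Fin n' → ℝ) (F' : (Fin n' → ℂ) → ℝ),
        (∀ (f : ℂ → ℂ) (S : ℝ), DifferentiableOn ℂ f D → (∀ z ∈ D, ‖f z‖ ≤ S) → |Φ f - F' (fun j => f (Complex.I * h' j))| ≤ ε' * S ^ (2 * k)) →
        ∀ t, |Φ (jf (δ T) t) - F' (fun j => zc (δ T) (h' j) t)| ≤ ε' * (P * Ar K k (δ T) t)) ∧
      IntegrableOn (fun t => Φ (jf (δ T) t)) (Set.Icc 0 T) := by
    choose nn' hh FF hFFc hFFh hFFa using fun m : ℕ => hΦ.fin (1 / ((m : ℝ) + 1)) (by positivity)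
    filter_upwards [hC, pos_path hδL, hMδ.eventually (gt_mem_nhds (show (0:ℝ) < 1 / 2 by norm_num)),
      hδ.eventually (gt_mem_nhds (show (0:ℝ) < 1 / 2 by norm_num)), eventually_gt_atTop 0] with T hCT hd hd2 hd3 hT
    have hS0 : ∀ t, 0 ≤ P * Ar K k (δ T) t := fun t => mul_nonneg hP0.le (Ar_nonneg _ _ _ _)
    have key : ∀ (ε' : ℝ) (n' : ℕ) (h' : Fin n' → ℝ) (F' : (Fin n' → ℂ) → ℝ),
        (∀ (f : ℂ → ℂ) (S : ℝ), DifferentiableOn ℂ f D → (∀ z ∈ D, ‖f z‖ ≤ S) → |Φ f - F' (fun j => f (Complex.I * h' j))| ≤ ε' * S ^ (2 * k)) →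
        ∀ t, |Φ (jf (δ T) t) - F' (fun j => zc (δ T) (h' j) t)| ≤ ε' * (P * Ar K k (δ T) t) := by
      intro ε' n' h' F' hF' t
      have h1 := hF' (jf (δ T) t) ((P * Ar K k (δ T) t) ^ (2 * k)⁻¹) (jf_diff hD hd hd2 t hD.DK) fun z hz => by
        have h2 := sup_le hD hk hd hd2 t hz
        rw [← hP] at h2
        have h3 := Real.rpow_le_rpow (Real.rpow_nonneg (norm_nonneg _) _) h2 (show 0 ≤ (2 * k)⁻¹ by positivity)
        rwa [← Real.rpow_mul (norm_nonneg _), mul_inv_cancel₀ (by positivity), Real.rpow_one] at h3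
      rw [← Real.rpow_mul (hS0 t), inv_mul_cancel₀ (by positivity), Real.rpow_one] at h1
      simp_rw [jf_line] at h1
      exact h1
    have cF : ∀ (n' : ℕ) (h' : Fin n' → ℝ) (F' : (Fin n' → ℂ) → ℝ), Continuous F' → Continuous fun t => F' (fun j => zc (δ T) (h' j) t) :=
      fun n' h' F' hF' => hF'.comp (continuous_pi fun j => zc_cont hd3 (h' j))
    have hmeas : AEStronglyMeasurable (fun t => Φ (jf (δ T) t)) (volume.restrict (Set.Icc 0 T)) := by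
      refine aestronglyMeasurable_of_tendsto_ae atTop (f := fun m t => FF m (fun j => zc (δ T) (hh m j) t)) (fun m => ?_) (Eventually.of_forall fun t => ?_)
      · exact (cF _ _ _ (hFFc m)).aestronglyMeasurable
      · rw [tendsto_iff_norm_sub_tendsto_zero]
        have h1 : Tendsto (fun m : ℕ => 1 / ((m : ℝ) + 1) * (P * Ar K k (δ T) t)) atTop (𝓝 0) := by
          have := (tendsto_one_div_add_atTop_nhds_zero_nat (𝕜 := ℝ)).mul_const (P * Ar K k (δ T) t)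
          rwa [zero_mul] at this
        refine squeeze_zero (fun _ => norm_nonneg _) (fun m => ?_) h1
        rw [norm_sub_rev, Real.norm_eq_abs]
        exact key _ _ _ _ (hFFa m) t
    refine ⟨hS0, hCT.1, hCT.2, key, ?_⟩
    have iF : IntegrableOn (fun t => FF 0 (fun j => zc (δ T) (hh 0 j) t)) (Set.Icc 0 T) :=
      (cF _ _ _ (hFFc 0)).continuousOn.integrableOn_compact isCompact_Icc
    have iA : IntegrableOn (fun t => 1 / (((0 : ℕ) : ℝ) + 1) * (P * Ar K k (δ T) t)) (Set.Icc 0 T) := (hCT.1.const_mul _).const_mul _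
    refine (iF.norm.add iA).mono hmeas (Eventually.of_forall fun t => ?_)
    refine le_trans ?_ (le_abs_self _)
    rw [Pi.add_apply, Real.norm_eq_abs, Real.norm_eq_abs]
    have h3 := key _ _ _ _ (hFFa 0) t
    have h4 := abs_sub_abs_le_abs_sub (Φ (jf (δ T) t)) (FF 0 fun j => zc (δ T) (hh 0 j) t)
    linarith
  refine ⟨hgen.mono fun T hT => hT.2.2.2.2, three_eps fun ε hε => ?_⟩
  obtain ⟨η, hη⟩ : ∃ η : ℝ, η = ε / (2 * (P * C + aF k * B + 1)) := ⟨_, rfl⟩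
  have hden : 0 < P * C + aF k * B + 1 := by positivity
  have hη0 : 0 < η := by rw [hη]; positivity
  have hη1 : η * (P * C + aF k * B + 1) = ε / 2 := by
    rw [hη]
    field_simp
  obtain ⟨n, h, F, hFc, hFh, hFa⟩ := hΦ.fin η hη0
  refine ⟨_, fun _ => η * (P * C), _, η * (P * C), homog hk hk2 hδ hδL h hFc hFh, tendsto_const_nhds, ?_, ?_, ?_⟩
  · have h1 : 0 ≤ η * (aF k * B) := by positivity
    nlinarith
  · rw [← mul_sub, abs_mul, abs_of_pos ha]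
    have h1 := hB η n h F hFc hFh hFa
    have h2 : aF k * |∫ ω, F (fun j => Complex.exp (lgv k h ω j)) ∂PG - ∫ ω, Φ (fi k ω) ∂PG| ≤ aF k * (η * B) := mul_le_mul_of_nonneg_left h1 ha.le
    have h3 : 0 ≤ η * (P * C) := by positivity
    nlinarith
  · filter_upwards [hgen, pos_path hδL, hδ.eventually (gt_mem_nhds (show (0:ℝ) < 1 / 2 by norm_num)), eventually_gt_atTop 0] with T hg hd hd3 hT
    obtain ⟨hS0, hA1, hA2, key, iΦ⟩ := hg
    obtain ⟨c, hc⟩ : ∃ c : ℝ, c = (2 * δ T) ^ (k ^ 2) / T := ⟨_, rfl⟩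
    have hc0 : 0 ≤ c := by rw [hc]; positivity
    rw [← hc] at hA2 ⊢
    have iF : IntegrableOn (fun t => F (fun j => zc (δ T) (h j) t)) (Set.Icc 0 T) :=
      (hFc.comp (continuous_pi fun j => zc_cont hd3 (h j))).continuousOn.integrableOn_compact isCompact_Icc
    have iA : IntegrableOn (fun t => η * (P * Ar K k (δ T) t)) (Set.Icc 0 T) := (hA1.const_mul _).const_mul _
    rw [← mul_sub, ← integral_sub iΦ iF, abs_mul, abs_of_nonneg hc0]
    have h5 : |∫ t in Set.Icc 0 T, (Φ (jf (δ T) t) - F (fun j => zc (δ T) (h j) t))| ≤ ∫ t in Set.Icc 0 T, η * (P * Ar K k (δ T) t) := by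
      rw [← Real.norm_eq_abs]
      refine norm_integral_le_of_norm_le iA (Eventually.of_forall fun t => ?_)
      rw [Real.norm_eq_abs]
      exact key _ _ _ _ hFa t
    rw [integral_const_mul, integral_const_mul] at h5
    calc c * |∫ t in Set.Icc 0 T, (Φ (jf (δ T) t) - F (fun j => zc (δ T) (h j) t))| ≤ c * (η * (P * ∫ t in Set.Icc 0 T, Ar K k (δ T) t)) :=
          mul_le_mul_of_nonneg_left h5 hc0
      _ = η * (P * (c * ∫ t in Set.Icc 0 T, Ar K k (δ T) t)) := by ring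
      _ ≤ η * (P * C) := by
          refine mul_le_mul_of_nonneg_left (mul_le_mul_of_nonneg_left hA2 (by positivity)) hη0.le

end

end Pool.Agent.X111.HP
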