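import Pool.Agent.X111.HP.Nd

set_option autoImplicit false
set_option linter.unusedSectionVars false

/-! The hitting theorem, with set integrals. -/

namespace Pool.Agent.X111.HP

open MeasureTheory ProbabilityTheory Filter Topology
open Pool.Agent.Y753.SHR
open Pool.Agent.H306R2 (aF aF_pos)
open Pool.Agent.X111.FL (jf PG fi fi_zero Gd Gd_ae)
open Pool.Agent.X111.JD (nn)

lemma small {δ : ℝ → ℝ} (hδ : Tendsto δ atTop (𝓝 0)) (M : ℝ) : ∀ᶠ T in atTop, δ T * M < 1 / 2 := by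
  have := hδ.mul_const M
  rw [zero_mul] at this
  exact this.eventually (gt_mem_nhds (by norm_num))

theorem up_set {k : ℝ} (hk : 0 < k) (hk2 : k ≤ 2) {δ : ℝ → ℝ} (hδ : Tendsto δ atTop (𝓝 0)) (hδL : Tendsto (fun T => δ T * Real.log T) atTop atTop)
    (c : ℕ → ℂ) (N : ℕ) {Q : Set ℂ} (hQ : IsCompact Q) (hQ1 : ∀ z ∈ Q, -1 < z.re) {ε : ℝ} (hε : 0 < ε) :
    ∀ᶠ T in atTop, (2 * δ T) ^ (k ^ 2) / T * ∫ t in Set.Icc 0 T ∩ Z (δ T) c N Q, ‖jf (δ T) t 0‖ ^ (2 * k) ≤ aF k * PG.real (Ev k c N Q) + ε := by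
  obtain ⟨e, R, he, he2, hR, hQD⟩ := ex_box hQ hQ1
  filter_upwards [up hk hk2 hδ hδL c N hQ hQ1 hε, pos_path hδL, small hδ (1 + R + e)] with T h1 h2 h3
  rwa [setIntegral_indicator (Z_closed (box he he2 hR) h2 h3 c N hQ hQD).measurableSet] at h1

theorem lo_set {k : ℝ} (hk : 0 < k) (hk2 : k ≤ 2) {δ : ℝ → ℝ} (hδ : Tendsto δ atTop (𝓝 0)) (hδL : Tendsto (fun T => δ T * Real.log T) atTop atTop)
    {c : ℕ → ℂ} {N : ℕ} (hc : ∃ j < N, c j ≠ 0) {U Q : Set ℂ} (hUo : IsOpen U) (hUQ : U ⊆ Q) (hQ : IsCompact Q)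
    (hQ1 : ∀ z ∈ Q, -1 < z.re) {ε : ℝ} (hε : 0 < ε) :
    ∀ᶠ T in atTop, aF k * PG.real (Ev k c N U) - ε ≤
      (2 * δ T) ^ (k ^ 2) / T * ∫ t in Set.Icc 0 T ∩ Z (δ T) c N U, ‖jf (δ T) t 0‖ ^ (2 * k) := by
  obtain ⟨e, R, he, he2, hR, hQD⟩ := ex_box hQ hQ1
  filter_upwards [lo hk hk2 hδ hδL c N (nondeg hk hc) hUo hUQ hQ hQ1 hε, pos_path hδL, small hδ (1 + R + e)] with T h1 h2 h3
  rwa [setIntegral_indicator (Z_meas (box he he2 hR) h2 h3 c N hUo (hUQ.trans hQD))] at h1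

/-- zeta itself: the form of order zero -/
def c1 : ℕ → ℂ := fun _ => 1

lemma Ev_c1 (k : ℝ) {Q : Set ℂ} (hQ1 : ∀ z ∈ Q, -1 < z.re) : Ev k c1 1 Q = ∅ := by
  ext ω
  simp only [Set.mem_empty_iff_false, iff_false]
  rintro ⟨z, hz, h⟩
  unfold Lc c1 at h
  rw [Finset.sum_range_one, one_mul, iteratedDeriv_zero] at h
  exact fi_ne k ω (hQ1 z hz) h

theorem repulsion {k : ℝ} (hk : 0 < k) (hk2 : k ≤ 2) {δ : ℝ → ℝ} (hδ : Tendsto δ atTop (𝓝 0)) (hδL : Tendsto (fun T => δ T * Real.log T) atTop atTop)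
    {Q : Set ℂ} (hQ : IsCompact Q) (hQ1 : ∀ z ∈ Q, -1 < z.re) :
    Tendsto (fun T => (2 * δ T) ^ (k ^ 2) / T * ∫ t in Set.Icc 0 T ∩ {t | ∃ z ∈ Q, riemannZeta (1 / 2 + δ T + t * Complex.I + δ T * z) = 0}, ‖jf (δ T) t 0‖ ^ (2 * k))
      atTop (𝓝 0) := by
  have e1 : ∀ T, {t : ℝ | ∃ z ∈ Q, riemannZeta (1 / 2 + δ T + t * Complex.I + δ T * z) = 0} = Z (δ T) c1 1 Q := by
    intro T
    ext t
    simp only [Z, Set.mem_ofPred_eq, Lc_jf, c1, Finset.sum_range_one, pow_zero, one_mul, iteratedDeriv_zero]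
  simp_rw [e1]
  rw [Metric.tendsto_atTop]
  intro ε hε
  have h1 := up_set hk hk2 hδ hδL c1 1 hQ hQ1 (ε := ε / 2) (by positivity)
  rw [Ev_c1 k hQ1, measureReal_empty, mul_zero, zero_add] at h1
  obtain ⟨T0, hT0⟩ := eventually_atTop.mp (h1.and ((pos_path hδL).and (eventually_gt_atTop 0)))
  refine ⟨T0, fun T hT => ?_⟩
  obtain ⟨h2, h3, h4⟩ := hT0 T hT
  rw [Real.dist_eq, sub_zero, abs_of_nonneg]
  · linarith
  · exact mul_nonneg (by positivity) (integral_nonneg fun t => by positivity)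

/-- the first order forms -/
def ca (a : ℂ) : ℕ → ℂ := fun j => if j = 0 then -a else 1

lemma Lc_ca (a : ℂ) (f : ℂ → ℂ) (z : ℂ) : Lc (ca a) 2 f z = deriv f z - a * f z := by
  unfold Lc ca
  rw [Finset.sum_range_succ, Finset.sum_range_one, if_pos rfl, if_neg one_ne_zero, iteratedDeriv_zero, iteratedDeriv_one]
  ring

lemma Ev_ca (k : ℝ) (a : ℂ) (Q : Set ℂ) : Ev k (ca a) 2 Q = Hv k a Q := by
  ext ω
  simp only [Ev, Hv, Set.mem_ofPred_eq, Lc_ca, sub_eq_zero]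

theorem Ev_pos (k : ℝ) (a : ℂ) {U : Set ℂ} (hU : IsOpen U) (hne : U.Nonempty) (hU1 : ∀ z ∈ U, -1 < z.re) : 0 < PG.real (Ev k (ca a) 2 U) := by
  rw [Ev_ca]
  exact Hv_pos k a hU hne hU1

theorem Ev_lt {k : ℝ} (hk : 0 < k) (a : ℂ) {Q : Set ℂ} (hQ : IsCompact Q) (hQ1 : ∀ z ∈ Q, -1 < z.re) : PG.real (Ev k (ca a) 2 Q) < 1 := by
  rcases Q.eq_empty_or_nonempty with hne | hne
  · rw [hne]
    have : Ev k (ca a) 2 ∅ = ∅ := by
      ext ω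
      simp [Ev]
    rw [this, measureReal_empty]
    exact one_pos
  · obtain ⟨e, R, he, he2, hR, hQD⟩ := ex_box hQ hQ1
    have h1 := Ev_null hk he he2 hR hQ hne hQD (ca a) 2
    rw [Ev_ca] at h1 ⊢
    exact Hv_lt k a hQ hQ1 h1

end Pool.Agent.X111.HP
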