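import Pool.Agent.X111.HP.Ser

set_option autoImplicit false
set_option linter.unusedSectionVars false

/-! Positivity and nontriviality of the hitting probabilities. -/

namespace Pool.Agent.X111.HP

open MeasureTheory ProbabilityTheory Filter Topology
open Pool.Agent.X111.FL (PG Gd Gd_ae indep PG_eval fi gf gf_diff Gd_sum term_norm wd_norm)
open Pool.Agent.X111.JD (ga nn)

/-- a dense sequence of translations -/
noncomputable def dq : ℕ → ℝ × ℝ := TopologicalSpace.denseSeq (ℝ × ℝ)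

lemma nn_cont' : Continuous nn := by
  unfold nn
  fun_prop

lemma dq_mem {V : Set ℂ} (hV : IsOpen V) (hne : V.Nonempty) : ∃ n, nn (dq n) ∈ V := by
  obtain ⟨v, hv⟩ := hne
  have h1 : IsOpen (nn ⁻¹' V) := hV.preimage nn_cont'
  have h2 : (nn ⁻¹' V).Nonempty := ⟨(v.re, v.im), by
    show nn (v.re, v.im) ∈ V
    unfold nn
    simpa using hv⟩
  obtain ⟨n, hn⟩ := (TopologicalSpace.denseRange_denseSeq (ℝ × ℝ)).exists_mem_open h1 h2
  exact ⟨n, hn⟩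

/-- the event, in terms of the derivative -/
def Hv (k : ℝ) (a : ℂ) (Q : Set ℂ) : Set (ℕ → ℝ × ℝ) := {ω | ∃ z ∈ Q, deriv (fi k ω) z = a * fi k ω z}

lemma w_inj {z0 : ℂ} (hz0 : -1 < z0.re) : ¬ ∀ᶠ z in 𝓝 z0, z / (z + 2) = z0 / (z0 + 2) := by
  intro h
  have h1 : ∀ᶠ z in 𝓝 z0, z = z0 := by
    filter_upwards [h, Hf_open.mem_nhds hz0] with z hz hz1
    have h2 := ne_two hz1
    have h3 := ne_two hz0
    rw [div_eq_div_iff h2 h3] at hz
    linear_combination hz / 2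
  have h4 : ∀ᶠ z in 𝓝[≠] z0, z = z0 := h1.filter_mono nhdsWithin_le_nhds
  have h5 : ∀ᶠ z in 𝓝[≠] z0, z ≠ z0 := self_mem_nhdsWithin
  obtain ⟨z, h6, h7⟩ := (h4.and h5).exists
  exact h7 h6

/-- if no translation of the first coordinate creates a solution in an open set, then the function is constant near each of its points -/
lemma const_near (k : ℝ) (a : ℂ) {U : Set ℂ} (hU : IsOpen U) (hU1 : ∀ z ∈ U, -1 < z.re) {ω : ℕ → ℝ × ℝ} (hω : Gd ω)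
    (hn : ∀ n, tr 0 (dq n) ω ∉ Hv k a U ∧ Gd (tr 0 (dq n) ω)) {z0 : ℂ} (hz0 : z0 ∈ U) : ∀ᶠ z in 𝓝 z0, ro k a ω z = ro k a ω z0 := by
  have han : AnalyticAt ℂ (ro k a ω) z0 := (ro_diff k a hω).analyticAt (Hf_open.mem_nhds (hU1 z0 hz0))
  rcases han.eventually_constant_or_nhds_le_map_nhds with h | h
  · exact h
  · exfalso
    have h1 : ro k a ω '' U ∈ 𝓝 (ro k a ω z0) := h (image_mem_map (hU.mem_nhds hz0))
    obtain ⟨r, hr, hr2⟩ := Metric.mem_nhds_iff.mp h1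
    obtain ⟨n, hnn⟩ := dq_mem (V := Metric.ball (-(ro k a ω z0)) r) Metric.isOpen_ball ⟨_, Metric.mem_ball_self hr⟩
    have h2 : -(nn (dq n)) ∈ Metric.ball (ro k a ω z0) r := by
      rw [mem_ball_iff_norm] at hnn ⊢
      have e1 : -(nn (dq n)) - ro k a ω z0 = -(nn (dq n) - -(ro k a ω z0)) := by ring
      rw [e1, norm_neg]
      exact hnn
    obtain ⟨z, hz, hze⟩ := hr2 h2
    refine (hn n).1 ⟨z, hz, ?_⟩
    rw [zero_iff k a (hn n).2 (hU1 z hz), ro_tr k a hω 0 (dq n) (hn n).2 (hU1 z hz), hze]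
    simp

/-- **Positivity.** -/
theorem Hv_pos (k : ℝ) (a : ℂ) {U : Set ℂ} (hU : IsOpen U) (hne : U.Nonempty) (hU1 : ∀ z ∈ U, -1 < z.re) : 0 < PG.real (Hv k a U) := by
  by_contra hcon
  have h0 : PG.real (Hv k a U) = 0 := le_antisymm (not_lt.mp hcon) measureReal_nonneg
  rw [measureReal_eq_zero_iff, measure_eq_zero_iff_ae_notMem] at h0
  have h1 : ∀ᵐ ω ∂PG, Gd ω ∧ ∀ n, tr 0 (dq n) ω ∉ Hv k a U ∧ Gd (tr 0 (dq n) ω) :=
    Gd_ae.and (ae_all_iff.mpr fun n => qi_ae (h0.and Gd_ae) 0 (dq n))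
  have h2 := qi_ae h1 1 (1, 0)
  obtain ⟨ω, ⟨g0, g1⟩, g2, g3⟩ := (h1.and h2).exists
  obtain ⟨z0, hz0⟩ := hne
  have c0 := const_near k a hU hU1 g0 g1 hz0
  have c1 := const_near k a hU hU1 g2 g3 hz0
  refine w_inj (hU1 z0 hz0) ?_
  filter_upwards [c0, c1, hU.mem_nhds hz0] with z h3 h4 h5
  rw [ro_tr k a g0 1 (1, 0) g2 (hU1 z h5), ro_tr k a g0 1 (1, 0) g2 (hU1 z0 hz0), h3] at h4
  have h6 : nn (1, 0) = 1 := by unfold nn; simp
  rw [h6, one_mul, one_mul, pow_one, pow_one] at h4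
  have h7 := add_left_cancel h4
  have h8 : (Real.sqrt (((1 : ℕ) : ℝ) + 1) : ℂ) ≠ 0 := by
    rw [Complex.ofReal_ne_zero]
    exact (Real.sqrt_pos.mpr (by norm_num)).ne'
  exact mul_left_cancel₀ h8 h7

/-- **Nontriviality.** -/
theorem Hv_lt (k : ℝ) (a : ℂ) {Q : Set ℂ} (hQ : IsCompact Q) (hQ1 : ∀ z ∈ Q, -1 < z.re) (hm : NullMeasurableSet (Hv k a Q) PG) : PG.real (Hv k a Q) < 1 := by
  by_contra hcon
  have hle : PG.real (Hv k a Q) ≤ 1 := measureReal_le_one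
  have h0 : PG.real (Hv k a Q) = 1 := le_antisymm hle (not_lt.mp hcon)
  have h00 : PG (Hv k a Q) = 1 := by
    rw [measureReal_def] at h0
    rw [← ENNReal.ofReal_toReal (measure_ne_top PG (Hv k a Q)), h0, ENNReal.ofReal_one]
  have hae : ∀ᵐ ω ∂PG, ω ∈ Hv k a Q := (mem_ae_iff_prob_eq_one₀ hm).mpr h00
  have h1 : ∀ᵐ ω ∂PG, Gd ω ∧ ∀ n, tr 0 (dq n) ω ∈ Hv k a Q ∧ Gd (tr 0 (dq n) ω) :=
    Gd_ae.and (ae_all_iff.mpr fun n => qi_ae (hae.and Gd_ae) 0 (dq n))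
  obtain ⟨ω, g0, g1⟩ := h1.exists
  obtain ⟨B, hB⟩ := hQ.exists_bound_of_continuousOn ((ro_diff k a g0).continuousOn.mono hQ1)
  obtain ⟨n, hn⟩ := dq_mem (V := {v : ℂ | B < ‖v‖}) (isOpen_lt continuous_const continuous_norm) ⟨((|B| + 1 : ℝ) : ℂ), by
    show B < ‖((|B| + 1 : ℝ) : ℂ)‖
    rw [Complex.norm_real, Real.norm_of_nonneg (by positivity)]
    linarith [le_abs_self B]⟩
  obtain ⟨⟨z, hz, hze⟩, g2⟩ := g1 n
  rw [zero_iff k a g2 (hQ1 z hz), ro_tr k a g0 0 (dq n) g2 (hQ1 z hz)] at hze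
  have h2 : ro k a ω z = -(nn (dq n)) := by
    simp at hze
    linear_combination hze
  have h3 := hB z hz
  rw [h2, norm_neg] at h3
  exact absurd h3 (not_le.mpr hn)

end Pool.Agent.X111.HP
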