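import Pool.Agent.X111.HP.Dom

set_option autoImplicit false
set_option linter.unusedSectionVars false

/-! Approximable linear functionals on domains; all jets are approximable; calculus of approximable functionals. -/

namespace Pool.Agent.X111.HP

open MeasureTheory ProbabilityTheory Filter Topology
open Pool.Agent.X111.FL (dm dm_add dm_smul)

/-- approximable linear functionals -/
def LA (D : Set ℂ) (l : (ℂ → ℂ) → ℂ) : Prop := ∀ ε : ℝ, 0 < ε → ∃ μ : ℝ →₀ ℂ, (∀ x ∈ μ.support, Complex.I * (x : ℂ) ∈ D) ∧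
  ∀ (f : ℂ → ℂ) (S : ℝ), DifferentiableOn ℂ f D → (∀ z ∈ D, ‖f z‖ ≤ S) → ‖l f - dm μ f‖ ≤ ε * S

section

variable {D : Set ℂ}

lemma LA_eval {a : ℝ} (ha : Complex.I * (a : ℂ) ∈ D) : LA D (fun f => f (Complex.I * a)) := by
  intro ε hε
  refine ⟨Finsupp.single a 1, fun x hx => ?_, fun f S _ hS => ?_⟩
  · have := Finsupp.support_single_subset hx
    rw [Finset.mem_singleton] at this
    rw [this]
    exact ha
  · unfold dm
    rw [Finsupp.sum_single_index (by simp), one_mul, sub_self, norm_zero]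
    exact mul_nonneg hε.le ((norm_nonneg _).trans (hS _ ha))

lemma LA_smul {l : (ℂ → ℂ) → ℂ} (hl : LA D l) (c : ℂ) : LA D (fun f => c * l f) := by
  intro ε hε
  obtain ⟨μ, h1, h2⟩ := hl (ε / (‖c‖ + 1)) (by positivity)
  refine ⟨c • μ, fun x hx => h1 x (Finsupp.support_smul hx), fun f S hf hS => ?_⟩
  rw [dm_smul, ← mul_sub, norm_mul]
  have h3 := h2 f S hf hS
  calc ‖c‖ * ‖l f - dm μ f‖ ≤ (‖c‖ + 1) * (ε / (‖c‖ + 1) * S) := mul_le_mul (by linarith) h3 (norm_nonneg _) (by positivity)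
    _ = ε * S := by field_simp

lemma LA_add {l m : (ℂ → ℂ) → ℂ} (hl : LA D l) (hm : LA D m) : LA D (fun f => l f + m f) := by
  intro ε hε
  obtain ⟨μ, h1, h2⟩ := hl (ε / 2) (by positivity)
  obtain ⟨ν, g1, g2⟩ := hm (ε / 2) (by positivity)
  refine ⟨μ + ν, fun x hx => ?_, fun f S hf hS => ?_⟩
  · classical
    rcases Finset.mem_union.mp (Finsupp.support_add hx) with h | h
    · exact h1 x h
    · exact g1 x h
  · rw [dm_add]
    have e1 : l f + m f - (dm μ f + dm ν f) = (l f - dm μ f) + (m f - dm ν f) := by ring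
    rw [e1]
    refine (norm_add_le _ _).trans ?_
    have := h2 f S hf hS
    have := g2 f S hf hS
    linarith

lemma LA_lim {l : (ℂ → ℂ) → ℂ} (h : ∀ ε : ℝ, 0 < ε → ∃ m : (ℂ → ℂ) → ℂ, LA D m ∧ ∀ (f : ℂ → ℂ) (S : ℝ), DifferentiableOn ℂ f D →
    (∀ z ∈ D, ‖f z‖ ≤ S) → ‖l f - m f‖ ≤ ε * S) : LA D l := by
  intro ε hε
  obtain ⟨m, hm, h1⟩ := h (ε / 2) (by positivity)
  obtain ⟨μ, g1, g2⟩ := hm (ε / 2) (by positivity)
  refine ⟨μ, g1, fun f S hf hS => ?_⟩
  have e1 : l f - dm μ f = (l f - m f) + (m f - dm μ f) := by ring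
  rw [e1]
  refine (norm_add_le _ _).trans ?_
  have := h1 f S hf hS
  have := g2 f S hf hS
  linarith

lemma LA_zero (h0 : (0:ℂ) ∈ D) : LA D (fun _ => 0) := by
  have h1 := LA_smul (LA_eval (D := D) (a := 0) (by simpa using h0)) 0
  simpa using h1

lemma LA_sum (h0 : (0:ℂ) ∈ D) {l : ℕ → (ℂ → ℂ) → ℂ} (hl : ∀ i, LA D (l i)) (N : ℕ) : LA D (fun f => ∑ i ∈ Finset.range N, l i f) := by
  induction N with
  | zero =>
    simp only [Finset.range_zero, Finset.sum_empty]
    exact LA_zero h0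
  | succ N ih =>
    simp_rw [Finset.sum_range_succ]
    exact LA_add ih (hl N)

lemma an_D (hD : IsOpen D) {f : ℂ → ℂ} (hf : DifferentiableOn ℂ f D) (j : ℕ) : AnalyticOnNhd ℂ (iteratedDeriv j f) D := by
  rw [iteratedDeriv_eq_iterate]
  exact (hf.analyticOnNhd hD).iterated_deriv j

lemma der_D (hD : IsOpen D) {f : ℂ → ℂ} (hf : DifferentiableOn ℂ f D) (j : ℕ) {z : ℂ} (hz : z ∈ D) :
    HasDerivAt (iteratedDeriv j f) (iteratedDeriv (j + 1) f z) z := by
  have h1 := ((an_D hD hf j) z hz).differentiableAt.hasDerivAt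
  rwa [← iteratedDeriv_succ] at h1

/-- Cauchy's inequality -/
lemma cauchy {f : ℂ → ℂ} (hf : DifferentiableOn ℂ f D) {S : ℝ} (hS : ∀ z ∈ D, ‖f z‖ ≤ S) {z : ℂ} {ρ : ℝ} (hρ : 0 < ρ)
    (hb : Metric.closedBall z ρ ⊆ D) (j : ℕ) : ‖iteratedDeriv j f z‖ ≤ j.factorial * S / ρ ^ j :=
  Complex.norm_iteratedDeriv_le_of_forall_mem_sphere_norm_le (n := j) hρ (hf.diffContOnCl_ball hb)
    (fun y hy => hS y (hb (Metric.sphere_subset_closedBall hy)))

/-- the second difference -/
lemma two_diff (hD : IsOpen D) {f : ℂ → ℂ} (hf : DifferentiableOn ℂ f D) {S : ℝ} (hS : ∀ z ∈ D, ‖f z‖ ≤ S) {z0 : ℂ} {ρ : ℝ} (hρ : 0 < ρ)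
    (hb : Metric.closedBall z0 (2 * ρ) ⊆ D) (j : ℕ) {w : ℂ} (hw : ‖w‖ ≤ ρ) :
    ‖iteratedDeriv j f (z0 + w) - iteratedDeriv j f z0 - w * iteratedDeriv (j + 1) f z0‖ ≤ ((j + 2).factorial * S / ρ ^ (j + 2)) * ‖w‖ ^ 2 := by
  obtain ⟨C, hC⟩ : ∃ C : ℝ, C = (j + 2).factorial * S / ρ ^ (j + 2) := ⟨_, rfl⟩
  rw [← hC]
  have hsub : Metric.closedBall z0 ‖w‖ ⊆ Metric.closedBall z0 ρ := Metric.closedBall_subset_closedBall hw
  have hin : Metric.closedBall z0 ρ ⊆ D := (Metric.closedBall_subset_closedBall (by linarith)).trans hb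
  have hest : ∀ z ∈ Metric.closedBall z0 ρ, ‖iteratedDeriv (j + 2) f z‖ ≤ C := by
    intro z hz
    have h1 : Metric.closedBall z ρ ⊆ D := by
      refine Set.Subset.trans (fun y hy => ?_) hb
      rw [Metric.mem_closedBall] at hy hz ⊢
      linarith [dist_triangle y z z0]
    rw [hC]
    exact cauchy hf hS hρ h1 (j + 2)
  have hC0 : 0 ≤ C := (norm_nonneg _).trans (hest z0 (Metric.mem_closedBall_self hρ.le))
  have hconv : Convex ℝ (Metric.closedBall z0 ‖w‖) := convex_closedBall _ _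
  have h0m : z0 ∈ Metric.closedBall z0 ‖w‖ := Metric.mem_closedBall_self (norm_nonneg _)
  have hwm : z0 + w ∈ Metric.closedBall z0 ‖w‖ := by
    rw [Metric.mem_closedBall, dist_eq_norm, add_sub_cancel_left]
  have h1 : ∀ z ∈ Metric.closedBall z0 ‖w‖, ‖iteratedDeriv (j + 1) f z - iteratedDeriv (j + 1) f z0‖ ≤ C * ‖w‖ := by
    intro z hz
    have h2 := hconv.norm_image_sub_le_of_norm_hasDerivWithin_le (f := iteratedDeriv (j + 1) f) (f' := iteratedDeriv (j + 2) f) (C := C)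
      (fun y hy => (der_D hD hf (j + 1) (hin (hsub hy))).hasDerivWithinAt) (fun y hy => hest y (hsub hy)) h0m hz
    refine h2.trans (mul_le_mul_of_nonneg_left ?_ hC0)
    rwa [Metric.mem_closedBall, dist_eq_norm] at hz
  have h3 := hconv.norm_image_sub_le_of_norm_hasDerivWithin_le (f := fun z => iteratedDeriv j f z - z * iteratedDeriv (j + 1) f z0)
    (f' := fun z => iteratedDeriv (j + 1) f z - iteratedDeriv (j + 1) f z0) (C := C * ‖w‖)
    (fun y hy => by
      have h4 := ((der_D hD hf j (hin (hsub hy))).sub ((hasDerivAt_id y).mul_const (iteratedDeriv (j + 1) f z0))).hasDerivWithinAt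
        (s := Metric.closedBall z0 ‖w‖)
      simp only [one_mul] at h4
      exact h4) h1 h0m hwm
  have e1 : iteratedDeriv j f (z0 + w) - iteratedDeriv j f z0 - w * iteratedDeriv (j + 1) f z0 =
      (iteratedDeriv j f (z0 + w) - (z0 + w) * iteratedDeriv (j + 1) f z0) - (iteratedDeriv j f z0 - z0 * iteratedDeriv (j + 1) f z0) := by ring
  rw [e1]
  refine h3.trans (le_of_eq ?_)
  rw [add_sub_cancel_left]
  ring

/-- jets at the points of the line -/
theorem LA_jet (hD : IsOpen D) (j : ℕ) : ∀ a : ℝ, Complex.I * (a : ℂ) ∈ D → LA D (fun f => iteratedDeriv j f (Complex.I * a)) := by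
  induction j with
  | zero =>
    intro a ha
    simp_rw [iteratedDeriv_zero]
    exact LA_eval ha
  | succ j ih =>
    intro a ha
    obtain ⟨ρ, hρ, hb⟩ : ∃ ρ : ℝ, 0 < ρ ∧ Metric.closedBall (Complex.I * a) (2 * ρ) ⊆ D := by
      obtain ⟨r, hr, hr2⟩ := Metric.nhds_basis_closedBall.mem_iff.mp (hD.mem_nhds ha)
      exact ⟨r / 2, by positivity, by rw [mul_div_cancel₀ r two_ne_zero]; exact hr2⟩
    refine LA_lim fun ε hε => ?_
    obtain ⟨Q, hQ⟩ : ∃ Q : ℝ, Q = (j + 2).factorial / ρ ^ (j + 2) := ⟨_, rfl⟩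
    have hQ0 : 0 < Q := by rw [hQ]; positivity
    obtain ⟨η, hη⟩ : ∃ η : ℝ, η = min ρ (ε / Q) := ⟨_, rfl⟩
    have hη0 : 0 < η := by
      rw [hη]
      exact lt_min hρ (by positivity)
    have hη1 : η ≤ ρ := by rw [hη]; exact min_le_left _ _
    have hη2 : η ≤ ε / Q := by rw [hη]; exact min_le_right _ _
    have hwn : ‖Complex.I * (η : ℂ)‖ = η := by
      rw [norm_mul, Complex.norm_I, one_mul, Complex.norm_real, Real.norm_of_nonneg hη0.le]
    have ha2 : Complex.I * ((a + η : ℝ) : ℂ) ∈ D := by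
      refine hb ?_
      rw [Metric.mem_closedBall, dist_eq_norm]
      have e1 : Complex.I * ((a + η : ℝ) : ℂ) - Complex.I * a = Complex.I * (η : ℂ) := by push_cast; ring
      rw [e1, hwn]
      linarith
    have hIη : Complex.I * (η : ℂ) ≠ 0 := mul_ne_zero Complex.I_ne_zero (by exact_mod_cast hη0.ne')
    refine ⟨fun f => (Complex.I * (η : ℂ))⁻¹ * iteratedDeriv j f (Complex.I * ((a + η : ℝ) : ℂ)) + -(Complex.I * (η : ℂ))⁻¹ * iteratedDeriv j f (Complex.I * a),
      LA_add (LA_smul (ih _ ha2) _) (LA_smul (ih _ ha) _), fun f S hf hS => ?_⟩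
    have h1 := two_diff hD hf hS hρ hb j (w := Complex.I * η) (by rw [hwn]; exact hη1)
    have e1 : iteratedDeriv (j + 1) f (Complex.I * a) - ((Complex.I * (η : ℂ))⁻¹ * iteratedDeriv j f (Complex.I * ((a + η : ℝ) : ℂ)) +
        -(Complex.I * (η : ℂ))⁻¹ * iteratedDeriv j f (Complex.I * a)) =
        -((Complex.I * (η : ℂ))⁻¹ * (iteratedDeriv j f (Complex.I * a + Complex.I * η) - iteratedDeriv j f (Complex.I * a) -
          Complex.I * η * iteratedDeriv (j + 1) f (Complex.I * a))) := by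
      have e2 : Complex.I * ((a + η : ℝ) : ℂ) = Complex.I * a + Complex.I * η := by push_cast; ring
      rw [e2]
      have e3 := inv_mul_cancel₀ hIη
      linear_combination (-iteratedDeriv (j + 1) f (Complex.I * a)) * e3
    rw [e1, norm_neg, norm_mul, norm_inv, hwn]
    rw [hwn] at h1
    have hS0 : 0 ≤ S := (norm_nonneg _).trans (hS _ (hb (Metric.mem_closedBall_self (by positivity))))
    calc η⁻¹ * _ ≤ η⁻¹ * (((j + 2).factorial * S / ρ ^ (j + 2)) * η ^ 2) := mul_le_mul_of_nonneg_left h1 (by positivity)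
      _ = η * Q * S := by rw [hQ]; field_simp
      _ ≤ ε * S := by
          refine mul_le_mul_of_nonneg_right ?_ hS0
          rw [le_div_iff₀ hQ0] at hη2
          exact hη2

/-- Taylor's formula: from a point to a neighbourhood -/
lemma LA_step (hD : IsOpen D) (h0 : (0:ℂ) ∈ D) {z0 : ℂ} {ρ : ℝ} (hρ : 0 < ρ) (hb : Metric.closedBall z0 (2 * ρ) ⊆ D)
    (h : ∀ j, LA D (fun f => iteratedDeriv j f z0)) {w : ℂ} (hw : ‖w - z0‖ ≤ ρ / 2) (j : ℕ) : LA D (fun f => iteratedDeriv j f w) := by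
  refine LA_lim fun ε hε => ?_
  obtain ⟨B, hB⟩ : ∃ B : ℝ, B = j.factorial / ρ ^ j := ⟨_, rfl⟩
  have hB0 : 0 < B := by rw [hB]; positivity
  obtain ⟨N, hN⟩ := exists_pow_lt_of_lt_one (show 0 < ε / (2 * B) by positivity) (show (1 / 2 : ℝ) < 1 by norm_num)
  refine ⟨fun f => ∑ i ∈ Finset.range N, ((i.factorial : ℂ)⁻¹ * (w - z0) ^ i) * iteratedDeriv (i + j) f z0,
    LA_sum h0 (fun i => LA_smul (h (i + j)) _) N, fun f S hf hS => ?_⟩
  have hin : Metric.closedBall z0 ρ ⊆ D := (Metric.closedBall_subset_closedBall (by linarith)).trans hb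
  have hS0 : 0 ≤ S := (norm_nonneg _).trans (hS _ h0)
  have hgb : ∀ z ∈ Metric.closedBall z0 ρ, ‖iteratedDeriv j f z‖ ≤ B * S := by
    intro z hz
    have h1 : Metric.closedBall z ρ ⊆ D := by
      refine Set.Subset.trans (fun y hy => ?_) hb
      rw [Metric.mem_closedBall] at hy hz ⊢
      linarith [dist_triangle y z z0]
    refine (cauchy hf hS hρ h1 j).trans (le_of_eq ?_)
    rw [hB]
    ring
  have hgd : DifferentiableOn ℂ (iteratedDeriv j f) D := (an_D hD hf j).differentiableOn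
  have hwb : w ∈ Metric.ball z0 ρ := by
    rw [Metric.mem_ball, dist_eq_norm]
    linarith
  have h2 := Complex.hasSum_taylorSeries_on_ball (hgd.mono (Metric.ball_subset_closedBall.trans hin)) hwb
  have hit : ∀ i, iteratedDeriv i (iteratedDeriv j f) z0 = iteratedDeriv (i + j) f z0 := by
    intro i
    rw [iteratedDeriv_eq_iterate, iteratedDeriv_eq_iterate, iteratedDeriv_eq_iterate, Function.iterate_add_apply]
  have h3 := norm_sub_le_of_geometric_bound_of_hasSum (show (1 / 2 : ℝ) < 1 by norm_num) (C := B * S) (fun i => by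
    have h4 := Complex.norm_iteratedDeriv_le_of_forall_mem_sphere_norm_le (n := i) (C := B * S) hρ (hgd.diffContOnCl_ball hin)
      (fun y hy => hgb y (Metric.sphere_subset_closedBall hy))
    rw [norm_smul, norm_smul, norm_inv, norm_pow, Complex.norm_natCast]
    have h5 : ‖w - z0‖ ^ i ≤ (ρ / 2) ^ i := pow_le_pow_left₀ (norm_nonneg _) hw i
    have hfac : (0:ℝ) < i.factorial := by positivity
    calc (i.factorial : ℝ)⁻¹ * (‖w - z0‖ ^ i * ‖iteratedDeriv i (iteratedDeriv j f) z0‖) ≤ (i.factorial : ℝ)⁻¹ * ((ρ / 2) ^ i * (i.factorial * (B * S) / ρ ^ i)) :=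
          mul_le_mul_of_nonneg_left (mul_le_mul h5 h4 (norm_nonneg _) (by positivity)) (by positivity)
      _ = B * S * (1 / 2) ^ i := by
          rw [div_pow, one_div, inv_pow]
          field_simp) h2 N
  simp only [hit] at h3
  rw [norm_sub_rev] at h3
  have e1 : ∑ i ∈ Finset.range N, ((i.factorial : ℂ)⁻¹ * (w - z0) ^ i) * iteratedDeriv (i + j) f z0 =
      ∑ i ∈ Finset.range N, (i.factorial : ℂ)⁻¹ • (w - z0) ^ i • iteratedDeriv (i + j) f z0 :=
    Finset.sum_congr rfl fun i _ => by rw [smul_eq_mul, smul_eq_mul, mul_assoc]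
  show ‖iteratedDeriv j f w - ∑ i ∈ Finset.range N, ((i.factorial : ℂ)⁻¹ * (w - z0) ^ i) * iteratedDeriv (i + j) f z0‖ ≤ ε * S
  rw [e1]
  refine h3.trans ?_
  have h6 : B * S * (1 / 2) ^ N / (1 - 1 / 2) = (2 * B) * (1 / 2) ^ N * S := by ring
  rw [h6]
  refine mul_le_mul_of_nonneg_right ?_ hS0
  have h7 := hN.le
  rw [le_div_iff₀ (by positivity)] at h7
  linarith

/-- all jets are approximable -/
theorem LA_all (hD : IsOpen D) (h0 : (0:ℂ) ∈ D) (hst : ∀ z ∈ D, segment ℝ (Complex.I * (z.im : ℂ)) z ⊆ D) {z : ℂ} (hz : z ∈ D) (j : ℕ) :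
    LA D (fun f => iteratedDeriv j f z) := by
  have hseg : IsCompact (segment ℝ (Complex.I * (z.im : ℂ)) z) := by
    rw [segment_eq_image]
    exact isCompact_Icc.image (by fun_prop)
  obtain ⟨s, hs, hsub⟩ := hseg.exists_cthickening_subset_open hD (hst z hz)
  obtain ⟨ρ, hρ⟩ : ∃ ρ : ℝ, ρ = s / 2 := ⟨_, rfl⟩
  have hρ0 : 0 < ρ := by rw [hρ]; positivity
  have hball : ∀ p ∈ segment ℝ (Complex.I * (z.im : ℂ)) z, Metric.closedBall p (2 * ρ) ⊆ D := by
    intro p hp
    rw [hρ, mul_div_cancel₀ s two_ne_zero]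
    exact (Metric.closedBall_subset_cthickening hp s).trans hsub
  obtain ⟨n, hn⟩ := exists_nat_ge (|z.re| / (ρ / 2) + 1)
  have hn0 : (0:ℝ) < n := by
    have : 0 ≤ |z.re| / (ρ / 2) := by positivity
    linarith
  have hstep : |z.re| / n ≤ ρ / 2 := by
    rw [div_le_iff₀ hn0]
    have h1 : |z.re| / (ρ / 2) ≤ n := by linarith
    rw [div_le_iff₀ (by positivity)] at h1
    linarith
  have hp : ∀ i : ℕ, i ≤ n → ((Complex.I * (z.im : ℂ)) + ((i / n * z.re : ℝ) : ℂ)) ∈ segment ℝ (Complex.I * (z.im : ℂ)) z := by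
    intro i hi
    rw [segment_eq_image]
    refine ⟨(i : ℝ) / n, ⟨by positivity, ?_⟩, ?_⟩
    · rw [div_le_one hn0]
      exact_mod_cast hi
    · simp only [Complex.real_smul]
      apply Complex.ext
      · simp
      · simp
        ring
  have hall : ∀ i : ℕ, i ≤ n → ∀ j, LA D (fun f => iteratedDeriv j f ((Complex.I * (z.im : ℂ)) + ((i / n * z.re : ℝ) : ℂ))) := by
    intro i
    induction i with
    | zero =>
      intro _ j
      have h1 := hball _ (hp 0 (Nat.zero_le n)) (Metric.mem_closedBall_self (by positivity))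
      simp only [Nat.cast_zero, zero_div, zero_mul, Complex.ofReal_zero, add_zero] at h1 ⊢
      exact LA_jet hD j z.im h1
    | succ i ih =>
      intro hi j
      refine LA_step hD h0 hρ0 (hball _ (hp i (by omega))) (ih (by omega)) ?_ j
      have e1 : (Complex.I * (z.im : ℂ)) + (((i + 1 : ℕ) / n * z.re : ℝ) : ℂ) - ((Complex.I * (z.im : ℂ)) + ((i / n * z.re : ℝ) : ℂ)) = ((z.re / n : ℝ) : ℂ) := by
        push_cast
        ring
      rw [e1, Complex.norm_real, Real.norm_eq_abs, abs_div, abs_of_pos hn0]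
      exact hstep
  have h1 := hall n le_rfl j
  have e2 : (Complex.I * (z.im : ℂ)) + ((n / n * z.re : ℝ) : ℂ) = z := by
    rw [div_self hn0.ne', one_mul]
    apply Complex.ext
    · simp
    · simp
  rwa [e2] at h1

/-- a continuous homogeneous function is bounded by a multiple of the norm -/
lemma hom_bd' {ι : Type} [Fintype ι] {d : ℝ} (hd : 0 < d) {F : (ι → ℂ) → ℝ} (hF : Continuous F)
    (hom : ∀ (c : ℂ) (v : ι → ℂ), F (fun j => c * v j) = ‖c‖ ^ d * F v) : ∃ C : ℝ, 0 ≤ C ∧ ∀ v, |F v| ≤ C * ‖v‖ ^ d := by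
  obtain ⟨C, hC⟩ := (isCompact_closedBall (0 : ι → ℂ) 1).exists_bound_of_continuousOn hF.continuousOn
  refine ⟨max C 0, le_max_right _ _, fun v => ?_⟩
  rcases eq_or_ne v 0 with h | h
  · have h1 : F v = 0 := by
      have := hom 0 v
      rw [norm_zero, Real.zero_rpow (by positivity), zero_mul] at this
      rw [← this]
      congr 1
      rw [h]
      funext j
      simp
    rw [h1, abs_zero]
    positivity
  · have hv : 0 < ‖v‖ := norm_pos_iff.mpr h
    have hvc : (‖v‖ : ℂ) ≠ 0 := by exact_mod_cast hv.ne'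
    have h1 := hom (‖v‖ : ℂ) (fun j => (‖v‖ : ℂ)⁻¹ * v j)
    have e1 : (fun j => (‖v‖ : ℂ) * ((‖v‖ : ℂ)⁻¹ * v j)) = v := by
      funext j
      rw [mul_inv_cancel_left₀ hvc]
    rw [e1, Complex.norm_real, norm_norm] at h1
    rw [h1, abs_mul, abs_of_nonneg (by positivity), mul_comm]
    refine mul_le_mul_of_nonneg_right ?_ (by positivity)
    refine le_trans ?_ (le_max_left _ _)
    rw [← Real.norm_eq_abs]
    refine hC _ ?_
    rw [mem_closedBall_zero_iff, pi_norm_le_iff_of_nonneg zero_le_one]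
    intro j
    rw [norm_mul, norm_inv, Complex.norm_real, norm_norm, inv_mul_le_iff₀ hv, mul_one]
    exact norm_le_pi_norm v j

/-- norms of linear functionals -/
lemma ApD_norm {l : (ℂ → ℂ) → ℂ} (hl : LA D l) : ApD D 1 (fun f => ‖l f‖) := by
  intro ε hε
  obtain ⟨μ, h1, h2⟩ := hl ε hε
  refine ⟨μ.support, inferInstance, fun x => (x : ℝ), fun v => ‖∑ x : μ.support, μ (x : ℝ) * v x‖, ?_, ?_, fun x => h1 x x.2, ?_⟩
  · exact (continuous_finsetSum _ fun x _ => continuous_const.mul (continuous_apply x)).norm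
  · intro c v
    show ‖∑ x : μ.support, μ (x : ℝ) * (c * v x)‖ = ‖c‖ ^ (1:ℝ) * ‖∑ x : μ.support, μ (x : ℝ) * v x‖
    rw [Real.rpow_one, ← norm_mul, Finset.mul_sum]
    congr 1
    exact Finset.sum_congr rfl fun x _ => by ring
  · intro f S hf hS
    have h3 := h2 f S hf hS
    rw [Real.rpow_one]
    have e1 : ∑ x : μ.support, μ x * f (Complex.I * ((x : ℝ) : ℂ)) = dm μ f := by
      rw [Finset.sum_coe_sort μ.support (fun x => μ x * f (Complex.I * (x : ℂ)))]
      rfl
    show |‖l f‖ - ‖∑ x : μ.support, μ (x : ℝ) * f (Complex.I * ((x : ℝ) : ℂ))‖| ≤ ε * S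
    rw [e1]
    exact (abs_norm_sub_norm_le _ _).trans h3

/-- composition -/
theorem ApD_comp (h0 : (0:ℂ) ∈ D) {m : ℕ} {p : Fin m → (ℂ → ℂ) → ℝ} (hp : ∀ i, ApD D 1 (p i)) {d : ℝ} {φ : (Fin m → ℝ) → ℝ} (hφ : Continuous φ)
    (hom : ∀ (c : ℝ) (v : Fin m → ℝ), 0 ≤ c → φ (fun j => c * v j) = c ^ d * φ v) : ApD D d (fun f => φ (fun i => p i f)) := by
  classical
  intro ε hε
  have hbd : ∃ M : ℝ, 0 ≤ M ∧ ∀ (f : ℂ → ℂ) (S : ℝ), DifferentiableOn ℂ f D → (∀ z ∈ D, ‖f z‖ ≤ S) → ∀ i, |p i f| ≤ M * S := by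
    choose ι hι h F hFc hFh hin hFa using fun i => hp i 1 one_pos
    choose C hC0 hC using fun i => @hom_bd' (ι i) (hι i) 1 one_pos (F i) (hFc i) (hFh i)
    refine ⟨∑ i, (1 + C i), Finset.sum_nonneg fun i _ => by have := hC0 i; linarith, fun f S hf hS i => ?_⟩
    have hS0 : 0 ≤ S := (norm_nonneg _).trans (hS _ h0)
    have h3 := hFa i f S hf hS
    rw [Real.rpow_one, one_mul] at h3
    have h4 := hC i (fun j => f (Complex.I * h i j))
    have h5 : ‖fun j => f (Complex.I * h i j)‖ ≤ S := (pi_norm_le_iff_of_nonneg hS0).mpr fun j => hS _ (hin i j)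
    rw [Real.rpow_one] at h4
    have h6 : |p i f| ≤ (1 + C i) * S := by
      have h7 := abs_sub_abs_le_abs_sub (p i f) (F i fun j => f (Complex.I * h i j))
      have h8 := mul_le_mul_of_nonneg_left h5 (hC0 i)
      linarith
    refine h6.trans (mul_le_mul_of_nonneg_right ?_ hS0)
    exact Finset.single_le_sum (f := fun i => 1 + C i) (fun i _ => by have := hC0 i; linarith) (Finset.mem_univ i)
  obtain ⟨M, hM0, hM⟩ := hbd
  have hu := (isCompact_closedBall (0 : Fin m → ℝ) (M + 1)).uniformContinuousOn_of_continuous hφ.continuousOn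
  rw [Metric.uniformContinuousOn_iff] at hu
  obtain ⟨η, hη, hu⟩ := hu ε hε
  obtain ⟨θ, hθ⟩ : ∃ θ : ℝ, θ = min (η / 2) 1 := ⟨_, rfl⟩
  have hθ0 : 0 < θ := by rw [hθ]; positivity
  have hθ1 : θ ≤ η / 2 := by rw [hθ]; exact min_le_left _ _
  have hθ2 : θ ≤ 1 := by rw [hθ]; exact min_le_right _ _
  choose ι hι h F hFc hFh hin hFa using fun i => hp i θ hθ0
  refine ⟨Σ i, ι i, inferInstance, fun x => h x.1 x.2, fun v => φ (fun i => F i (fun j => v ⟨i, j⟩)), ?_, ?_, fun x => hin x.1 x.2, ?_⟩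
  · exact hφ.comp (continuous_pi fun i => (hFc i).comp (continuous_pi fun j => continuous_apply _))
  · intro c v
    show φ (fun i => F i (fun j => c * v ⟨i, j⟩)) = ‖c‖ ^ d * φ (fun i => F i (fun j => v ⟨i, j⟩))
    rw [← hom _ _ (norm_nonneg c)]
    congr 1
    funext i
    rw [hFh, Real.rpow_one]
  · intro f S hf hS
    have hS0 : 0 ≤ S := (norm_nonneg _).trans (hS _ h0)
    show |φ (fun i => p i f) - φ (fun i => F i (fun j => f (Complex.I * h i j)))| ≤ ε * S ^ d
    rcases hS0.eq_or_lt with hS1 | hS1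
    · have h3 : (fun i => p i f) = fun i => F i (fun j => f (Complex.I * h i j)) := by
        funext i
        have h4 := hFa i f S hf hS
        rw [← hS1, Real.rpow_one, mul_zero] at h4
        exact sub_eq_zero.mp (abs_nonpos_iff.mp h4)
      rw [h3, sub_self, abs_zero]
      positivity
    · have e1 : ∀ v : Fin m → ℝ, φ v = S ^ d * φ (fun i => S⁻¹ * v i) := by
        intro v
        have := hom S (fun i => S⁻¹ * v i) hS0
        rw [← this]
        congr 1
        funext i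
        rw [mul_inv_cancel_left₀ hS1.ne']
      rw [e1 fun i => p i f, e1 fun i => F i (fun j => f (Complex.I * h i j)), ← mul_sub, abs_mul, abs_of_nonneg (by positivity), mul_comm ε]
      refine mul_le_mul_of_nonneg_left ?_ (by positivity)
      have hn : ∀ x : ℝ, ‖S⁻¹ * x‖ = |x| / S := by
        intro x
        rw [norm_mul, norm_inv, Real.norm_of_nonneg hS1.le, Real.norm_eq_abs, inv_mul_eq_div]
      have b1 : (fun i => S⁻¹ * p i f) ∈ Metric.closedBall (0 : Fin m → ℝ) (M + 1) := by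
        rw [mem_closedBall_zero_iff, pi_norm_le_iff_of_nonneg (by positivity)]
        intro i
        rw [hn, div_le_iff₀ hS1]
        have := hM f S hf hS i
        nlinarith
      have b2 : (fun i => S⁻¹ * F i (fun j => f (Complex.I * h i j))) ∈ Metric.closedBall (0 : Fin m → ℝ) (M + 1) := by
        rw [mem_closedBall_zero_iff, pi_norm_le_iff_of_nonneg (by positivity)]
        intro i
        rw [hn, div_le_iff₀ hS1]
        have g1 := hM f S hf hS i
        have g2 := hFa i f S hf hS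
        rw [Real.rpow_one, abs_sub_comm] at g2
        have g3 := abs_sub_abs_le_abs_sub (F i fun j => f (Complex.I * h i j)) (p i f)
        nlinarith
      have h7 := hu _ b1 _ b2 (by
        rw [dist_eq_norm]
        refine lt_of_le_of_lt ((pi_norm_le_iff_of_nonneg (by positivity : (0:ℝ) ≤ η / 2)).mpr fun i => ?_) (by linarith)
        show ‖S⁻¹ * p i f - S⁻¹ * F i (fun j => f (Complex.I * h i j))‖ ≤ η / 2
        rw [← mul_sub, hn, div_le_iff₀ hS1]
        have g2 := hFa i f S hf hS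
        rw [Real.rpow_one] at g2
        nlinarith)
      rw [Real.dist_eq] at h7
      exact h7.le

/-- limits -/
lemma ApD_lim {d : ℝ} {Φ : (ℂ → ℂ) → ℝ} (h : ∀ ε : ℝ, 0 < ε → ∃ Ψ : (ℂ → ℂ) → ℝ, ApD D d Ψ ∧ ∀ (f : ℂ → ℂ) (S : ℝ), DifferentiableOn ℂ f D →
    (∀ z ∈ D, ‖f z‖ ≤ S) → |Φ f - Ψ f| ≤ ε * S ^ d) : ApD D d Φ := by
  intro ε hε
  obtain ⟨Ψ, hΨ, h1⟩ := h (ε / 2) (by positivity)
  obtain ⟨ι, hι, hh, F, g1, g2, g3, g4⟩ := hΨ (ε / 2) (by positivity)
  refine ⟨ι, hι, hh, F, g1, g2, g3, fun f S hf hS => ?_⟩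
  have e1 : Φ f - F (fun j => f (Complex.I * hh j)) = (Φ f - Ψ f) + (Ψ f - F (fun j => f (Complex.I * hh j))) := by ring
  rw [e1]
  refine (abs_add_le _ _).trans ?_
  have := h1 f S hf hS
  have := g4 f S hf hS
  linarith

/-- powers -/
lemma ApD_pow (h0 : (0:ℂ) ∈ D) {p : (ℂ → ℂ) → ℝ} (hp : ApD D 1 p) {d : ℝ} (hd : 0 < d) : ApD D d (fun f => |p f| ^ d) := by
  have h1 := ApD_comp h0 (p := fun _ : Fin 1 => p) (fun _ => hp) (d := d) (φ := fun v => |v 0| ^ d)
    ((continuous_abs.comp (continuous_apply 0)).rpow_const fun _ => Or.inr hd.le) (fun c v hc => by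
      show |c * v 0| ^ d = c ^ d * |v 0| ^ d
      rw [abs_mul, abs_of_nonneg hc, Real.mul_rpow hc (abs_nonneg _)])
  exact h1

end

end Pool.Agent.X111.HP
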