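import Pool.Agent.X111.HP.Hit

set_option autoImplicit false
set_option linter.unusedSectionVars false

/-! Nondegeneracy of the linear differential forms of the limit field. -/

namespace Pool.Agent.X111.HP

open MeasureTheory ProbabilityTheory Filter Topology
open Pool.Agent.X111.FL (PG Gd Gd_ae indep PG_eval fi fi_zero gf gf_diff gf_summable Gd_sum term_norm wd_norm)
open Pool.Agent.X111.JD (ga nn)

lemma gf_tr {ω : ℕ → ℝ × ℝ} (h : Gd ω) (n : ℕ) (s : ℝ × ℝ) (h' : Gd (tr n s ω)) {w : ℂ} (hw : ‖w‖ < 1) :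
    gf (tr n s ω) w = gf ω w + nn s * (w ^ (n + 1) / (Real.sqrt (n + 1) : ℂ)) := by
  have h1 := (gf_summable h hw).hasSum
  have h2 := (gf_summable h' hw).hasSum
  have h3 : HasSum (fun i : ℕ => if i = n then nn s * (w ^ (n + 1) / (Real.sqrt (n + 1) : ℂ)) else 0) (nn s * (w ^ (n + 1) / (Real.sqrt (n + 1) : ℂ))) :=
    hasSum_ite_eq n (nn s * (w ^ (n + 1) / (Real.sqrt (n + 1) : ℂ)))
  have h4 := h1.add h3
  have e1 : (fun i : ℕ => nn (ω i) * (w ^ (i + 1) / (Real.sqrt (i + 1) : ℂ)) + if i = n then nn s * (w ^ (n + 1) / (Real.sqrt (n + 1) : ℂ)) else 0) =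
      fun i : ℕ => nn (tr n s ω i) * (w ^ (i + 1) / (Real.sqrt (i + 1) : ℂ)) := by
    funext i
    unfold tr
    split_ifs with hi
    · rw [hi, nn_add]
      ring
    · rw [add_zero]
  rw [e1] at h4
  exact h2.unique h4

lemma fi_tr (k : ℝ) {ω : ℕ → ℝ × ℝ} (h : Gd ω) (n : ℕ) (s : ℝ × ℝ) (h' : Gd (tr n s ω)) {z : ℂ} (hz : -1 < z.re) :
    fi k (tr n s ω) z = fi k ω z * Complex.exp (nn s * ((z / (z + 2)) ^ (n + 1) / (Real.sqrt (n + 1) : ℂ))) := by
  unfold fi
  rw [gf_tr h n s h' (wd_norm hz), Complex.exp_add]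
  ring

lemma fi_an (k : ℝ) {ω : ℕ → ℝ × ℝ} (h : Gd ω) : AnalyticAt ℂ (fi k ω) 0 := by
  have h1 : DifferentiableOn ℂ (fi k ω) Hf := fun z hz => (fi_hasDerivAt k h hz).differentiableAt.differentiableWithinAt
  exact h1.analyticAt (Hf_open.mem_nhds (by show (-1:ℝ) < (0:ℂ).re; simp))

lemma iter_tr (k : ℝ) {ω : ℕ → ℝ × ℝ} (h : Gd ω) (n : ℕ) (s : ℝ × ℝ) (h' : Gd (tr n s ω)) {j : ℕ} (hj : j ≤ n + 1) :
    iteratedDeriv j (fi k (tr n s ω)) 0 = iteratedDeriv j (fi k ω) 0 +
      if j = n + 1 then nn s * (((n + 1).factorial : ℂ) / ((Real.sqrt (n + 1) : ℂ) * 2 ^ (n + 1))) else 0 := by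
  obtain ⟨u, hu⟩ : ∃ u : ℂ → ℂ, u = fun z => nn s * ((z / (z + 2)) ^ (n + 1) / (Real.sqrt (n + 1) : ℂ)) := ⟨_, rfl⟩
  obtain ⟨H, hH⟩ : ∃ H : ℂ → ℂ, H = fun z => fi k ω z * (nn s / (Real.sqrt (n + 1) : ℂ) * (1 / (z + 2) ^ (n + 1))) * dslope Complex.exp 0 (u z) := ⟨_, rfl⟩
  have hu0 : u 0 = 0 := by rw [hu]; simp
  have hds : AnalyticAt ℂ (dslope Complex.exp 0) (u 0) := by
    have h1 : DifferentiableOn ℂ (dslope Complex.exp 0) Set.univ :=
      (Complex.differentiableOn_dslope Filter.univ_mem).mpr Complex.differentiable_exp.differentiableOn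
    exact h1.analyticAt Filter.univ_mem
  have h20 : (0:ℂ) + 2 ≠ 0 := by norm_num
  have hua : AnalyticAt ℂ u 0 := by
    rw [hu]
    have h1 : AnalyticAt ℂ (fun z : ℂ => z / (z + 2)) 0 := analyticAt_id.div (analyticAt_id.add analyticAt_const) h20
    exact analyticAt_const.mul ((h1.pow (n + 1)).div_const)
  have hHa : AnalyticAt ℂ H 0 := by
    rw [hH]
    refine ((fi_an k h).mul (analyticAt_const.mul ?_)).mul (hds.comp hua)
    exact analyticAt_const.div ((analyticAt_id.add analyticAt_const).pow _) (pow_ne_zero _ h20)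
  have hH0 : H 0 = nn s / (Real.sqrt (n + 1) : ℂ) * (1 / 2 ^ (n + 1)) := by
    rw [hH]
    simp only
    rw [hu0, dslope_same, Complex.deriv_exp, Complex.exp_zero, fi_zero]
    ring
  have heq : fi k (tr n s ω) =ᶠ[𝓝 0] fun z => fi k ω z + z ^ (n + 1) * H z := by
    filter_upwards [Hf_open.mem_nhds (show (0:ℂ) ∈ Hf by show (-1:ℝ) < (0:ℂ).re; simp)] with z hz
    have h2 := ne_two hz
    have h3 : Complex.exp (u z) = 1 + u z * dslope Complex.exp 0 (u z) := by
      have := sub_smul_dslope Complex.exp 0 (u z)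
      rw [sub_zero, smul_eq_mul, Complex.exp_zero] at this
      linear_combination -this
    have h4 : fi k (tr n s ω) z = fi k ω z * Complex.exp (u z) := by
      rw [hu]
      exact fi_tr k h n s h' hz
    have h5 : u z = z ^ (n + 1) * (nn s / (Real.sqrt (n + 1) : ℂ) * (1 / (z + 2) ^ (n + 1))) := by
      rw [hu]
      simp only
      rw [div_pow]
      ring
    rw [h4, h3, hH]
    simp only
    nth_rewrite 1 [h5]
    ring
  rw [heq.iteratedDeriv_eq j]
  have hp : AnalyticAt ℂ (fun z : ℂ => z ^ (n + 1)) 0 := analyticAt_id.pow _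
  have hq : AnalyticAt ℂ (fun z : ℂ => z ^ (n + 1) * H z) 0 := hp.mul hHa
  rw [iteratedDeriv_fun_add (fi_an k h).contDiffAt hq.contDiffAt]
  congr 1
  have e2 : iteratedDeriv j (fun z : ℂ => z ^ (n + 1) * H z) 0 = ∑ i ∈ Finset.range (j + 1), (j.choose i : ℂ) * iteratedDeriv i (fun z : ℂ => z ^ (n + 1)) 0 *
      iteratedDeriv (j - i) H 0 := iteratedDeriv_fun_mul hp.contDiffAt hHa.contDiffAt
  rw [e2]
  simp_rw [iteratedDeriv_fun_pow_zero]
  split_ifs with hjn
  · rw [Finset.sum_eq_single (n + 1)]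
    · rw [if_pos rfl, hjn, Nat.choose_self, Nat.sub_self, iteratedDeriv_zero, hH0]
      push_cast
      ring
    · intro i _ hi
      rw [if_neg hi]
      ring
    · intro h6
      exact (h6 (Finset.mem_range.mpr (by omega))).elim
  · refine Finset.sum_eq_zero fun i hi => ?_
    rw [Finset.mem_range] at hi
    rw [if_neg (by omega)]
    ring

lemma Lc_tr (k : ℝ) {ω : ℕ → ℝ × ℝ} (h : Gd ω) (n : ℕ) (s : ℝ × ℝ) (h' : Gd (tr n s ω)) {c : ℕ → ℂ} {N : ℕ} (hn : n + 1 < N)
    (hc : ∀ j, n + 1 < j → j < N → c j = 0) :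
    Lc c N (fi k (tr n s ω)) 0 = Lc c N (fi k ω) 0 + c (n + 1) * (nn s * (((n + 1).factorial : ℂ) / ((Real.sqrt (n + 1) : ℂ) * 2 ^ (n + 1)))) := by
  unfold Lc
  have h1 : ∀ j ∈ Finset.range N, c j * iteratedDeriv j (fi k (tr n s ω)) 0 = c j * iteratedDeriv j (fi k ω) 0 +
      if j = n + 1 then c (n + 1) * (nn s * (((n + 1).factorial : ℂ) / ((Real.sqrt (n + 1) : ℂ) * 2 ^ (n + 1)))) else 0 := by
    intro j hj
    rw [Finset.mem_range] at hj
    rcases lt_trichotomy j (n + 1) with hlt | heq | hgt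
    · rw [iter_tr k h n s h' hlt.le, if_neg hlt.ne, if_neg hlt.ne, add_zero, add_zero]
    · rw [iter_tr k h n s h' heq.le, if_pos heq, if_pos heq, heq]
      ring
    · rw [hc j hgt hj, if_neg hgt.ne']
      ring
  rw [Finset.sum_congr rfl h1, Finset.sum_add_distrib, Finset.sum_ite_eq', if_pos (Finset.mem_range.mpr hn)]

lemma tr_qmp (n : ℕ) (s : ℝ × ℝ) : Measure.QuasiMeasurePreserving (tr n s) PG PG := ⟨tr_meas n s, qi n s⟩

/-- **Nondegeneracy.** -/
theorem nondeg {k : ℝ} (hk : 0 < k) {c : ℕ → ℂ} {N : ℕ} (hc : ∃ j < N, c j ≠ 0) : ∀ᵐ ω ∂PG, Lc c N (fi k ω) 0 ≠ 0 := by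
  classical
  obtain ⟨m, hm, hmax⟩ : ∃ m, (m < N ∧ c m ≠ 0) ∧ ∀ j, m < j → j < N → c j = 0 := by
    have hne : ((Finset.range N).filter fun j => c j ≠ 0).Nonempty := by
      obtain ⟨j, hj, hcj⟩ := hc
      exact ⟨j, Finset.mem_filter.mpr ⟨Finset.mem_range.mpr hj, hcj⟩⟩
    refine ⟨((Finset.range N).filter fun j => c j ≠ 0).max' hne, ?_, fun j hj hjN => ?_⟩
    · have := Finset.max'_mem _ hne
      rw [Finset.mem_filter, Finset.mem_range] at this
      exact this
    · by_contra hcj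
      have := Finset.le_max' ((Finset.range N).filter fun j => c j ≠ 0) j (Finset.mem_filter.mpr ⟨Finset.mem_range.mpr hjN, hcj⟩)
      omega
  rcases Nat.eq_zero_or_pos m with h0 | h0
  · refine Eventually.of_forall fun ω => ?_
    unfold Lc
    rw [Finset.sum_eq_single 0]
    · rw [iteratedDeriv_zero, fi_zero, mul_one, ← h0]
      exact hm.2
    · intro j hj hj0
      rw [hmax j (by omega) (Finset.mem_range.mp hj), zero_mul]
    · intro h1
      exact (h1 (Finset.mem_range.mpr (by omega))).elim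
  · obtain ⟨n, rfl⟩ : ∃ n, m = n + 1 := ⟨m - 1, by omega⟩
    obtain ⟨A, hA⟩ : ∃ A : Set (ℕ → ℝ × ℝ), A = {ω | Lc c N (fi k ω) 0 = 0} := ⟨_, rfl⟩
    have hAm : NullMeasurableSet A PG := by
      have hb := box (e := 1 / 4) (R := 1) (by norm_num) (by norm_num) (by norm_num)
      have h1 := (Phi_int hb hk (ApD_pow hb.zero (ApD_norm (LA_Lc hb.op hb.zero (seg (by norm_num) (by norm_num)) c N hb.zero)) (d := 2 * k) (by positivity))).1.aestronglyMeasurable
      have h2 := h1.aemeasurable.nullMeasurableSet_preimage (measurableSet_singleton (0:ℝ))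
      have e1 : (fun ω => |‖Lc c N (fi k ω) 0‖| ^ (2 * k)) ⁻¹' {0} = A := by
        ext ω
        rw [hA, Set.mem_preimage, Set.mem_singleton_iff, Set.mem_ofPred_eq, Real.rpow_eq_zero (abs_nonneg _) (by positivity), abs_norm, norm_eq_zero]
      rw [e1] at h2
      exact h2
    have hcount := Measure.countable_meas_pos_of_disjoint_iUnion₀ (μ := PG) (As := fun x : ℝ => tr n (x, 0) ⁻¹' A)
      (fun x => hAm.preimage (tr_qmp n (x, 0))) (by
        intro x y hxy
        show PG (tr n (x, 0) ⁻¹' A ∩ tr n (y, 0) ⁻¹' A) = 0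
        rw [measure_eq_zero_iff_ae_notMem]
        filter_upwards [Gd_ae, qi_ae Gd_ae n (x, 0), qi_ae Gd_ae n (y, 0)] with ω g0 g1 g2
        rintro ⟨h1, h2⟩
        rw [Set.mem_preimage, hA, Set.mem_ofPred_eq] at h1 h2
        rw [Lc_tr k g0 n (x, 0) g1 hm.1 hmax] at h1
        rw [Lc_tr k g0 n (y, 0) g2 hm.1 hmax] at h2
        have h8 := h1.trans h2.symm
        rw [add_right_inj, mul_right_inj' hm.2] at h8
        have h3 : ((n + 1).factorial : ℂ) / ((Real.sqrt (n + 1) : ℂ) * 2 ^ (n + 1)) ≠ 0 := by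
          refine div_ne_zero (by exact_mod_cast (Nat.factorial_pos _).ne') (mul_ne_zero ?_ (pow_ne_zero _ two_ne_zero))
          rw [Complex.ofReal_ne_zero]
          exact (Real.sqrt_pos.mpr (by positivity)).ne'
        have h4 := mul_right_cancel₀ h3 h8
        unfold nn at h4
        simp at h4
        exact hxy h4)
    obtain ⟨x, hx⟩ : ∃ x : ℝ, PG (tr n (x, 0) ⁻¹' A) = 0 := by
      by_contra hcon
      push Not at hcon
      have h1 : {i : ℝ | 0 < PG (tr n (i, 0) ⁻¹' A)} = Set.univ := by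
        ext i
        simp only [Set.mem_ofPred_eq, Set.mem_univ, iff_true]
        exact pos_iff_ne_zero.mpr (hcon i)
      rw [h1] at hcount
      exact Cardinal.not_countable_real hcount
    rw [measure_eq_zero_iff_ae_notMem] at hx
    have h5 := qi_ae hx n (-x, 0)
    filter_upwards [h5] with ω h6 h7
    apply h6
    rw [Set.mem_preimage]
    have e2 : tr n (x, 0) (tr n (-x, 0) ω) = ω := by
      funext i
      unfold tr
      split_ifs
      · rw [add_assoc]
        simp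
      · rfl
    rw [e2, hA]
    exact h7

end Pool.Agent.X111.HP
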