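import Pool.Agent.X111.HP.Lin

set_option autoImplicit false
set_option linter.unusedSectionVars false

/-! Minima over compact sets of linear differential forms. -/

namespace Pool.Agent.X111.HP

open MeasureTheory ProbabilityTheory Filter Topology

/-- a linear differential form with constant coefficients -/
noncomputable def Lc (c : ℕ → ℂ) (N : ℕ) (f : ℂ → ℂ) (z : ℂ) : ℂ := ∑ j ∈ Finset.range N, c j * iteratedDeriv j f z

/-- the bound for the derivative of the form -/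
noncomputable def Bd (c : ℕ → ℂ) (N : ℕ) (ρ : ℝ) : ℝ := ∑ j ∈ Finset.range N, ‖c j‖ * ((j + 1).factorial / ρ ^ (j + 1))

section

variable {D : Set ℂ}

lemma Lc_an (hD : IsOpen D) (c : ℕ → ℂ) (N : ℕ) {f : ℂ → ℂ} (hf : DifferentiableOn ℂ f D) : AnalyticOnNhd ℂ (Lc c N f) D := by
  unfold Lc
  exact Finset.analyticOnNhd_fun_sum _ fun j _ => analyticOnNhd_const.mul (an_D hD hf j)

lemma Lc_deriv (hD : IsOpen D) (c : ℕ → ℂ) (N : ℕ) {f : ℂ → ℂ} (hf : DifferentiableOn ℂ f D) {z : ℂ} (hz : z ∈ D) :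
    HasDerivAt (Lc c N f) (∑ j ∈ Finset.range N, c j * iteratedDeriv (j + 1) f z) z := by
  unfold Lc
  exact HasDerivAt.fun_sum fun j _ => (der_D hD hf j hz).const_mul _

lemma LA_Lc (hD : IsOpen D) (h0 : (0:ℂ) ∈ D) (hst : ∀ z ∈ D, segment ℝ (Complex.I * (z.im : ℂ)) z ⊆ D) (c : ℕ → ℂ) (N : ℕ) {z : ℂ} (hz : z ∈ D) :
    LA D (fun f => Lc c N f z) :=
  LA_sum h0 (fun j => LA_smul (LA_all hD h0 hst hz j) (c j)) N

/-- the Lipschitz bound -/
lemma Lc_lip (hD : IsOpen D) (c : ℕ → ℂ) (N : ℕ) {f : ℂ → ℂ} (hf : DifferentiableOn ℂ f D) {S : ℝ} (hS : ∀ z ∈ D, ‖f z‖ ≤ S) {z : ℂ} {ρ : ℝ}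
    (hρ : 0 < ρ) (hb : Metric.closedBall z (2 * ρ) ⊆ D) {w : ℂ} (hw : ‖w - z‖ ≤ ρ) : ‖Lc c N f w - Lc c N f z‖ ≤ Bd c N ρ * S * ‖w - z‖ := by
  have hin : Metric.closedBall z ρ ⊆ D := (Metric.closedBall_subset_closedBall (by linarith)).trans hb
  refine (convex_closedBall z ρ).norm_image_sub_le_of_norm_hasDerivWithin_le (f := Lc c N f)
    (f' := fun y => ∑ j ∈ Finset.range N, c j * iteratedDeriv (j + 1) f y) (fun y hy => (Lc_deriv hD c N hf (hin hy)).hasDerivWithinAt)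
    (fun y hy => ?_) (Metric.mem_closedBall_self hρ.le) (by rw [Metric.mem_closedBall, dist_eq_norm]; exact hw)
  have h1 : Metric.closedBall y ρ ⊆ D := by
    refine Set.Subset.trans (fun u hu => ?_) hb
    rw [Metric.mem_closedBall] at hu hy ⊢
    linarith [dist_triangle u y z]
  unfold Bd
  rw [Finset.sum_mul]
  refine (norm_sum_le _ _).trans (Finset.sum_le_sum fun j _ => ?_)
  rw [norm_mul, mul_assoc]
  refine mul_le_mul_of_nonneg_left ?_ (norm_nonneg _)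
  refine (cauchy hf hS hρ h1 (j + 1)).trans (le_of_eq ?_)
  ring

end

/-- the minimum over a compact set -/
noncomputable def mq (Q : Set ℂ) (c : ℕ → ℂ) (N : ℕ) (f : ℂ → ℂ) : ℝ := ⨅ z : Q, ‖Lc c N f z‖

lemma mq_nn (Q : Set ℂ) (c : ℕ → ℂ) (N : ℕ) (f : ℂ → ℂ) : 0 ≤ mq Q c N f := Real.iInf_nonneg fun _ => norm_nonneg _

lemma mq_le {Q : Set ℂ} (c : ℕ → ℂ) (N : ℕ) (f : ℂ → ℂ) {z : ℂ} (hz : z ∈ Q) : mq Q c N f ≤ ‖Lc c N f z‖ :=
  ciInf_le (f := fun z : Q => ‖Lc c N f z‖) ⟨0, by rintro _ ⟨y, rfl⟩; exact norm_nonneg _⟩ ⟨z, hz⟩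

lemma mq_attained {Q : Set ℂ} (hQ : IsCompact Q) (hne : Q.Nonempty) (c : ℕ → ℂ) (N : ℕ) {f : ℂ → ℂ} (hc : ContinuousOn (Lc c N f) Q) :
    ∃ z ∈ Q, mq Q c N f = ‖Lc c N f z‖ := by
  obtain ⟨z, hz, hmin⟩ := hQ.exists_isMinOn hne hc.norm
  have : Nonempty Q := ⟨⟨z, hz⟩⟩
  exact ⟨z, hz, le_antisymm (mq_le c N f hz) (le_ciInf fun y => hmin y.2)⟩

lemma iInf_cont {n : ℕ} : Continuous fun v : Fin (n + 1) → ℝ => ⨅ i, v i := by
  have e1 : (fun v : Fin (n + 1) → ℝ => ⨅ i, v i) = fun v => Finset.univ.inf' Finset.univ_nonempty v := by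
    funext v
    rw [Finset.inf'_univ_eq_ciInf]
  rw [e1]
  exact Continuous.finset_inf'_apply Finset.univ_nonempty fun i _ => continuous_apply i

section

variable {D : Set ℂ}

/-- minima are approximable -/
theorem ApD_mq (hD : IsOpen D) (h0 : (0:ℂ) ∈ D) (hst : ∀ z ∈ D, segment ℝ (Complex.I * (z.im : ℂ)) z ⊆ D) (c : ℕ → ℂ) (N : ℕ) {Q : Set ℂ}
    (hQ : IsCompact Q) (hne : Q.Nonempty) (hQD : Q ⊆ D) : ApD D 1 (mq Q c N) := by
  obtain ⟨s, hs, hsub⟩ := hQ.exists_cthickening_subset_open hD hQD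
  obtain ⟨ρ, hρ⟩ : ∃ ρ : ℝ, ρ = s / 2 := ⟨_, rfl⟩
  have hρ0 : 0 < ρ := by rw [hρ]; positivity
  have hball : ∀ p ∈ Q, Metric.closedBall p (2 * ρ) ⊆ D := by
    intro p hp
    rw [hρ, mul_div_cancel₀ s two_ne_zero]
    exact (Metric.closedBall_subset_cthickening hp s).trans hsub
  have hB0 : 0 ≤ Bd c N ρ := by unfold Bd; positivity
  refine ApD_lim fun ε hε => ?_
  obtain ⟨θ, hθ⟩ : ∃ θ : ℝ, θ = min ρ (ε / (Bd c N ρ + 1)) := ⟨_, rfl⟩
  have hθ0 : 0 < θ := by rw [hθ]; positivity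
  have hθ1 : θ ≤ ρ := by rw [hθ]; exact min_le_left _ _
  have hθ2 : θ ≤ ε / (Bd c N ρ + 1) := by rw [hθ]; exact min_le_right _ _
  obtain ⟨t, htQ, htf, ht⟩ := hQ.finite_cover_balls hθ0
  obtain ⟨z0, hz0⟩ := hne
  have htne : t.Nonempty := by
    obtain ⟨x, hx, -⟩ := Set.mem_iUnion₂.mp (ht hz0)
    exact ⟨x, hx⟩
  obtain ⟨n, x, hx1, hx2⟩ : ∃ (n : ℕ) (x : Fin (n + 1) → ℂ), (∀ i, x i ∈ Q) ∧ ∀ z ∈ Q, ∃ i, ‖z - x i‖ ≤ θ := by
    have hcard : 0 < htf.toFinset.card := Finset.card_pos.mpr (by rw [Set.Finite.toFinset_nonempty]; exact htne)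
    obtain ⟨n, hn⟩ : ∃ n, htf.toFinset.card = n + 1 := ⟨htf.toFinset.card - 1, by omega⟩
    refine ⟨n, fun i => ((htf.toFinset.equivFin.symm (Fin.cast hn.symm i) : htf.toFinset) : ℂ), fun i => ?_, fun z hz => ?_⟩
    · have h1 := (htf.toFinset.equivFin.symm (Fin.cast hn.symm i)).2
      rw [Set.Finite.mem_toFinset] at h1
      exact htQ h1
    · obtain ⟨y, hy, hzy⟩ := Set.mem_iUnion₂.mp (ht hz)
      refine ⟨Fin.cast hn (htf.toFinset.equivFin ⟨y, by rw [Set.Finite.mem_toFinset]; exact hy⟩), ?_⟩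
      simp only [Fin.cast_cast, Fin.cast_eq_self, Equiv.symm_apply_apply]
      rw [Metric.mem_ball, dist_eq_norm] at hzy
      exact hzy.le
  refine ⟨fun f => ⨅ i, ‖Lc c N f (x i)‖, ?_, fun f S hf hS => ?_⟩
  · exact ApD_comp h0 (p := fun i f => ‖Lc c N f (x i)‖) (fun i => ApD_norm (LA_Lc hD h0 hst c N (hQD (hx1 i)))) (d := 1) (φ := fun v => ⨅ i, v i)
      iInf_cont (fun a v ha => by
        show ⨅ i, a * v i = a ^ (1:ℝ) * ⨅ i, v i
        rw [Real.rpow_one, Real.mul_iInf_of_nonneg ha])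
  · have hS0 : 0 ≤ S := (norm_nonneg _).trans (hS _ h0)
    have hQne : Nonempty Q := ⟨⟨z0, hz0⟩⟩
    have hbdd : BddBelow (Set.range fun i => ‖Lc c N f (x i)‖) := ⟨0, by rintro _ ⟨y, rfl⟩; exact norm_nonneg _⟩
    have h1 : mq Q c N f ≤ ⨅ i, ‖Lc c N f (x i)‖ := le_ciInf fun i => mq_le c N f (hx1 i)
    have h2 : (⨅ i, ‖Lc c N f (x i)‖) - ε * S ≤ mq Q c N f := by
      refine le_ciInf fun z => ?_
      obtain ⟨i, hi⟩ := hx2 z z.2
      have h3 := Lc_lip hD c N hf hS hρ0 (hball z z.2) (w := x i) (by rw [norm_sub_rev]; linarith)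
      have h4 := ciInf_le hbdd i
      have h5 := norm_sub_norm_le (Lc c N f (x i)) (Lc c N f z)
      have h6 : Bd c N ρ * S * ‖x i - z‖ ≤ ε * S := by
        rw [norm_sub_rev] at hi
        have h7 : (Bd c N ρ + 1) * ‖x i - z‖ ≤ ε := by
          have h8 := hi.trans hθ2
          rw [le_div_iff₀ (by linarith)] at h8
          linarith
        have h9 : Bd c N ρ * ‖x i - z‖ ≤ ε := by nlinarith [norm_nonneg (x i - z)]
        nlinarith
      linarith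
    show |mq Q c N f - ⨅ i, ‖Lc c N f (x i)‖| ≤ ε * S ^ (1:ℝ)
    rw [Real.rpow_one, abs_le]
    have : 0 ≤ ε * S := by positivity
    constructor <;> linarith

lemma ApD_two (h0 : (0:ℂ) ∈ D) {p q : (ℂ → ℂ) → ℝ} (hp : ApD D 1 p) (hq : ApD D 1 q) {φ : ℝ → ℝ → ℝ} (hφ : Continuous fun x : ℝ × ℝ => φ x.1 x.2)
    (hom : ∀ c a b : ℝ, 0 ≤ c → φ (c * a) (c * b) = c * φ a b) : ApD D 1 (fun f => φ (p f) (q f)) := by
  have hc : Continuous fun v : Fin 2 → ℝ => φ (v 0) (v 1) := hφ.comp (f := fun v : Fin 2 → ℝ => ((v 0, v 1) : ℝ × ℝ)) (by fun_prop)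
  have h1 := ApD_comp h0 (p := fun i : Fin 2 => if i = 0 then p else q) (fun i => by
    split_ifs
    · exact hp
    · exact hq) (d := 1) (φ := fun v => φ (v 0) (v 1)) hc (fun c v hc => by
      show φ (c * v 0) (c * v 1) = c ^ (1:ℝ) * φ (v 0) (v 1)
      rw [Real.rpow_one, hom c _ _ hc])
  exact h1

lemma ApD_zero (h0 : (0:ℂ) ∈ D) : ApD D 1 (fun _ => 0) := by
  have h1 := ApD_comp h0 (m := 0) (p := fun i => i.elim0) (fun i => i.elim0) (d := 1) (φ := fun _ => 0) continuous_const (fun c v _ => by simp)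
  exact h1

end

end Pool.Agent.X111.HP
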