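import Pool.Agent.X111.HP.Zer

set_option autoImplicit false
set_option linter.unusedSectionVars false

/-! Quasi-invariance of the law of the coefficients under translations of one coordinate. -/

namespace Pool.Agent.X111.HP

open MeasureTheory ProbabilityTheory Filter Topology
open Pool.Agent.X111.FL (PG Gd Gd_ae indep PG_eval)
open Pool.Agent.X111.JD (ga)

lemma ga_ac (s : ℝ) : Measure.map (fun x => x + s) ga ≪ ga := by
  unfold ga
  rw [gaussianReal_map_add_const]
  exact (gaussianReal_absolutelyContinuous _ (by norm_num)).trans (gaussianReal_absolutelyContinuous' _ (by norm_num))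

lemma ga2_ac (s : ℝ × ℝ) : Measure.map (fun p => p + s) (ga.prod ga) ≪ ga.prod ga := by
  have h1 : (fun p : ℝ × ℝ => p + s) = Prod.map (fun x => x + s.1) (fun x => x + s.2) := by
    funext p
    rfl
  rw [h1, ← Measure.map_prod_map _ _ (measurable_add_const _) (measurable_add_const _)]
  exact (ga_ac _).prod (ga_ac _)

/-- the translation of one coordinate -/
noncomputable def tr (n : ℕ) (s : ℝ × ℝ) (ω : ℕ → ℝ × ℝ) : ℕ → ℝ × ℝ := fun i => if i = n then ω i + s else ω i

lemma tr_meas (n : ℕ) (s : ℝ × ℝ) : Measurable (tr n s) := by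
  refine measurable_pi_lambda _ fun i => ?_
  unfold tr
  split_ifs
  · have h1 : Measurable fun ω : ℕ → ℝ × ℝ => ω i := measurable_pi_apply i
    exact h1.add_const s
  · exact measurable_pi_apply i

/-- products with one factor changed -/
lemma one_change (n : ℕ) {ν : Measure (ℝ × ℝ)} [IsProbabilityMeasure ν] (hν : ν ≪ ga.prod ga) :
    Measure.infinitePi (fun i : ℕ => if i = n then ν else ga.prod ga) ≪ PG := by
  classical
  have hpr : ∀ i : ℕ, IsProbabilityMeasure (if i = n then ν else ga.prod ga) := by
    intro i
    split_ifs <;> infer_instance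
  obtain ⟨h, hh⟩ : ∃ h : ℝ × ℝ → ENNReal, h = ν.rnDeriv (ga.prod ga) := ⟨_, rfl⟩
  have hm : Measurable h := by rw [hh]; exact Measure.measurable_rnDeriv _ _
  have hd : (ga.prod ga).withDensity h = ν := by rw [hh]; exact Measure.withDensity_rnDeriv_eq _ _ hν
  have key : Measure.infinitePi (fun i : ℕ => if i = n then ν else ga.prod ga) = PG.withDensity (fun ω => h (ω n)) := by
    symm
    refine Measure.eq_infinitePi _ fun s t ht => ?_
    obtain ⟨t', ht'⟩ : ∃ t' : ℕ → Set (ℝ × ℝ), t' = fun i => if i ∈ s then t i else Set.univ := ⟨_, rfl⟩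
    have ht'm : ∀ i, MeasurableSet (t' i) := by
      intro i
      rw [ht']
      dsimp only
      split_ifs with hi
      · exact ht i
      · exact MeasurableSet.univ
    have hset : (Set.pi (s : Set ℕ) t) = Set.pi ((insert n s : Finset ℕ) : Set ℕ) t' := by
      ext ω
      simp only [Set.mem_pi, Finset.mem_coe, Finset.mem_insert, ht']
      constructor
      · intro h1 i _
        split_ifs with hi
        · exact h1 i hi
        · exact Set.mem_univ _
      · intro h1 i hi
        have := h1 i (Or.inr hi)
        rwa [if_pos hi] at this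
    rw [hset]
    have hms : MeasurableSet (Set.pi ((insert n s : Finset ℕ) : Set ℕ) t') := MeasurableSet.pi (Finset.countable_toSet _) fun i _ => ht'm i
    rw [withDensity_apply _ hms, ← lintegral_indicator hms]
    obtain ⟨G, hG⟩ : ∃ G : ℕ → ℝ × ℝ → ENNReal, G = fun i => (t' i).indicator (if i = n then h else fun _ => 1) := ⟨_, rfl⟩
    have hGm : ∀ i, Measurable (G i) := by
      intro i
      rw [hG]
      dsimp only
      refine Measurable.indicator ?_ (ht'm i)
      split_ifs
      · exact hm
      · exact measurable_const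
    have e1 : ∀ ω : ℕ → ℝ × ℝ, (Set.pi ((insert n s : Finset ℕ) : Set ℕ) t').indicator (fun ω => h (ω n)) ω = ∏ i ∈ insert n s, G i (ω i) := by
      intro ω
      by_cases hω : ω ∈ Set.pi ((insert n s : Finset ℕ) : Set ℕ) t'
      · rw [Set.indicator_of_mem hω]
        have h2 : ∀ i ∈ insert n s, G i (ω i) = if i = n then h (ω n) else 1 := by
          intro i hi
          rw [hG]
          simp only
          rw [Set.indicator_of_mem (hω i (by exact_mod_cast hi))]
          split_ifs with h3
          · rw [h3]
          · rfl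
        rw [Finset.prod_congr rfl h2, Finset.prod_ite_eq' (insert n s) n (fun _ => h (ω n)), if_pos (Finset.mem_insert_self _ _)]
      · rw [Set.indicator_of_notMem hω]
        rw [Set.mem_pi] at hω
        push Not at hω
        obtain ⟨i, hi, hi2⟩ := hω
        refine (Finset.prod_eq_zero (i := i) (by exact_mod_cast hi) ?_).symm
        rw [hG]
        simp only
        rw [Set.indicator_of_notMem hi2]
    simp_rw [e1]
    have hind : iIndepFun (fun (i : ℕ) (ω : ℕ → ℝ × ℝ) => G i (ω i)) PG := indep.comp (fun i => G i) hGm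
    rw [lintegral_prod_eq_prod_lintegral_of_indepFun _ _ hind fun i => (hGm i).comp (measurable_pi_apply i)]
    have e2 : ∀ i, ∫⁻ ω, G i (ω i) ∂PG = (if i = n then ν else ga.prod ga) (t' i) := by
      intro i
      have e3 : ∫⁻ ω, G i (ω i) ∂PG = ∫⁻ p, G i p ∂(ga.prod ga) := by
        rw [← PG_eval i, lintegral_map (hGm i) (measurable_pi_apply i)]
      rw [e3, hG]
      simp only
      rw [lintegral_indicator (ht'm i)]
      split_ifs with h3
      · rw [← withDensity_apply _ (ht'm i), hd]
      · simp
    simp_rw [e2]
    by_cases hn : n ∈ s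
    · rw [Finset.insert_eq_of_mem hn]
      refine Finset.prod_congr rfl fun i hi => ?_
      rw [ht']
      simp only [if_pos hi]
    · rw [Finset.prod_insert hn]
      have e4 : (if n = n then ν else ga.prod ga) (t' n) = 1 := by
        rw [ht']
        simp only [if_neg hn, if_true]
        exact measure_univ
      rw [e4, one_mul]
      refine Finset.prod_congr rfl fun i hi => ?_
      rw [ht']
      simp only [if_pos hi]
  rw [key]
  exact withDensity_absolutelyContinuous _ _

/-- **Quasi-invariance.** -/
theorem qi (n : ℕ) (s : ℝ × ℝ) : Measure.map (tr n s) PG ≪ PG := by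
  have h1 : tr n s = fun ω i => (if i = n then (fun p : ℝ × ℝ => p + s) else id) (ω i) := by
    funext ω i
    unfold tr
    split_ifs <;> rfl
  have hfm : ∀ i : ℕ, Measurable (if i = n then (fun p : ℝ × ℝ => p + s) else id) := by
    intro i
    split_ifs
    · exact measurable_add_const s
    · exact measurable_id
  rw [h1]
  unfold PG
  rw [Measure.infinitePi_map_pi (μ := fun _ : ℕ => ga.prod ga) (f := fun i : ℕ => (if i = n then (fun p : ℝ × ℝ => p + s) else id)) hfm]
  have : IsProbabilityMeasure (Measure.map (fun p : ℝ × ℝ => p + s) (ga.prod ga)) := Measure.isProbabilityMeasure_map (measurable_add_const s).aemeasurable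
  have e1 : (fun i : ℕ => Measure.map (if i = n then (fun p : ℝ × ℝ => p + s) else id) (ga.prod ga)) =
      fun i : ℕ => if i = n then Measure.map (fun p : ℝ × ℝ => p + s) (ga.prod ga) else ga.prod ga := by
    funext i
    split_ifs
    · rfl
    · exact Measure.map_id
  simp_rw [e1]
  exact one_change n (ga2_ac s)

lemma qi_ae {P : (ℕ → ℝ × ℝ) → Prop} (h : ∀ᵐ ω ∂PG, P ω) (n : ℕ) (s : ℝ × ℝ) : ∀ᵐ ω ∂PG, P (tr n s ω) := by
  have h1 : ∀ᵐ ω ∂(Measure.map (tr n s) PG), P ω := (qi n s).ae_le h
  exact ae_of_ae_map (tr_meas n s).aemeasurable h1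

end Pool.Agent.X111.HP
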