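import Pool.Agent.X111.HP.Qi

set_option autoImplicit false
set_option linter.unusedSectionVars false

/-! The logarithmic derivative of the limit field. -/

namespace Pool.Agent.X111.HP

open MeasureTheory ProbabilityTheory Filter Topology
open Pool.Agent.X111.FL (PG Gd Gd_ae indep PG_eval fi gf gf_diff Gd_sum term_norm wd_norm)
open Pool.Agent.X111.JD (ga nn)

/-- the series `∑ √(n+1) ξ_{n+1} w^n` -/
noncomputable def Gs (ω : ℕ → ℝ × ℝ) (w : ℂ) : ℂ := ∑' n : ℕ, nn (ω n) * ((Real.sqrt (n + 1) : ℂ) * w ^ n)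

lemma sqrt_c (n : ℕ) : ((n : ℂ) + 1) / (Real.sqrt (n + 1) : ℂ) = (Real.sqrt (n + 1) : ℂ) := by
  have h1 : (0:ℝ) < (n : ℝ) + 1 := by positivity
  have h2 : (Real.sqrt (n + 1) : ℂ) ≠ 0 := by
    rw [Complex.ofReal_ne_zero]
    exact (Real.sqrt_pos.mpr h1).ne'
  rw [div_eq_iff h2, ← Complex.ofReal_mul, Real.mul_self_sqrt h1.le]
  push_cast
  rfl

lemma gf_hasSum {ω : ℕ → ℝ × ℝ} (h : Gd ω) {w : ℂ} (hw : ‖w‖ < 1) :
    HasSum (fun n : ℕ => nn (ω n) * ((Real.sqrt (n + 1) : ℂ) * w ^ n)) (deriv (gf ω) w) := by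
  obtain ⟨r, hr1, hr2⟩ := exists_between hw
  have hr0 : 0 ≤ r := (norm_nonneg _).trans hr1.le
  have h1 := Complex.hasSum_deriv_of_summable_norm (F := fun (n : ℕ) (w : ℂ) => nn (ω n) * (w ^ (n + 1) / (Real.sqrt (n + 1) : ℂ))) (U := Metric.ball 0 r) (z := w)
    (Gd_sum h hr0 hr2) (fun n => by fun_prop) Metric.isOpen_ball (fun n z hz => by
      rw [mem_ball_zero_iff] at hz
      exact term_norm hz.le ω n) (by rw [mem_ball_zero_iff]; exact hr1)
  have e1 : (fun n : ℕ => deriv (fun w : ℂ => nn (ω n) * (w ^ (n + 1) / (Real.sqrt (n + 1) : ℂ))) w) =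
      fun n : ℕ => nn (ω n) * ((Real.sqrt (n + 1) : ℂ) * w ^ n) := by
    funext n
    have h2 : HasDerivAt (fun w : ℂ => nn (ω n) * (w ^ (n + 1) / (Real.sqrt (n + 1) : ℂ))) (nn (ω n) * (((n + 1 : ℕ) : ℂ) * w ^ n / (Real.sqrt (n + 1) : ℂ))) w := by
      have h3 := ((hasDerivAt_pow (n + 1) w).div_const (Real.sqrt (n + 1) : ℂ)).const_mul (nn (ω n))
      rwa [Nat.add_sub_cancel] at h3
    rw [h2.deriv]
    congr 1
    rw [mul_div_right_comm]
    congr 1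
    push_cast
    exact sqrt_c n
  rw [e1] at h1
  exact h1

lemma gf_hasDeriv {ω : ℕ → ℝ × ℝ} (h : Gd ω) {w : ℂ} (hw : ‖w‖ < 1) : HasDerivAt (gf ω) (Gs ω w) w := by
  have h1 : DifferentiableAt ℂ (gf ω) w := (gf_diff h).differentiableAt (Metric.isOpen_ball.mem_nhds (by rw [mem_ball_zero_iff]; exact hw))
  have h2 : Gs ω w = deriv (gf ω) w := (gf_hasSum h hw).tsum_eq
  rw [h2]
  exact h1.hasDerivAt

lemma Gs_diff {ω : ℕ → ℝ × ℝ} (h : Gd ω) : DifferentiableOn ℂ (Gs ω) (Metric.ball 0 1) := by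
  refine ((gf_diff h).deriv Metric.isOpen_ball).congr fun w hw => ?_
  rw [mem_ball_zero_iff] at hw
  exact (gf_hasDeriv h hw).deriv.symm

lemma nn_add (p s : ℝ × ℝ) : nn (p + s) = nn p + nn s := by
  unfold nn
  rw [Prod.fst_add, Prod.snd_add]
  push_cast
  ring

lemma Gs_tr {ω : ℕ → ℝ × ℝ} (h : Gd ω) (n : ℕ) (s : ℝ × ℝ) (h' : Gd (tr n s ω)) {w : ℂ} (hw : ‖w‖ < 1) :
    Gs (tr n s ω) w = Gs ω w + nn s * ((Real.sqrt (n + 1) : ℂ) * w ^ n) := by
  have h1 := gf_hasSum h hw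
  have h2 := gf_hasSum h' hw
  have h3 : HasSum (fun i : ℕ => if i = n then nn s * ((Real.sqrt (n + 1) : ℂ) * w ^ n) else 0) (nn s * ((Real.sqrt (n + 1) : ℂ) * w ^ n)) := by
    have := hasSum_ite_eq n (nn s * ((Real.sqrt (n + 1) : ℂ) * w ^ n))
    exact this
  have h4 := h1.add h3
  have e1 : (fun i : ℕ => nn (ω i) * ((Real.sqrt (i + 1) : ℂ) * w ^ i) + if i = n then nn s * ((Real.sqrt (n + 1) : ℂ) * w ^ n) else 0) =
      fun i : ℕ => nn (tr n s ω i) * ((Real.sqrt (i + 1) : ℂ) * w ^ i) := by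
    funext i
    unfold tr
    split_ifs with hi
    · rw [hi, nn_add]
      ring
    · rw [add_zero]
  rw [e1] at h4
  have h5 := h2.unique h4
  have e2 : Gs ω w = deriv (gf ω) w := h1.tsum_eq
  have e3 : Gs (tr n s ω) w = deriv (gf (tr n s ω)) w := h2.tsum_eq
  rw [e2, e3]
  exact h5

lemma ne_two {z : ℂ} (hz : -1 < z.re) : z + 2 ≠ 0 := by
  intro h
  have h1 := congrArg Complex.re h
  simp at h1
  linarith

lemma fi_ne (k : ℝ) (ω : ℕ → ℝ × ℝ) {z : ℂ} (hz : -1 < z.re) : fi k ω z ≠ 0 := by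
  unfold fi
  refine mul_ne_zero ?_ (Complex.exp_ne_zero _)
  rw [Ne, Complex.cpow_eq_zero_iff]
  rintro ⟨h1, -⟩
  have h2 := ne_two hz
  apply h2
  linear_combination 2 * h1

lemma fi_hasDerivAt (k : ℝ) {ω : ℕ → ℝ × ℝ} (h : Gd ω) {z : ℂ} (hz : -1 < z.re) :
    HasDerivAt (fi k ω) (fi k ω z * (-(k : ℂ) / (z + 2) + 2 / (z + 2) ^ 2 * Gs ω (z / (z + 2)))) z := by
  have h2 := ne_two hz
  have h3 : 1 + z / 2 ≠ 0 := by
    intro h0
    apply h2
    linear_combination 2 * h0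
  have h4 : HasDerivAt (fun z : ℂ => 1 + z / 2) (1 / 2) z := ((hasDerivAt_id z).div_const 2).const_add 1
  have h5 : HasDerivAt (fun z : ℂ => (1 + z / 2) ^ (-(k : ℂ))) (-(k : ℂ) * (1 + z / 2) ^ (-(k : ℂ) - 1) * (1 / 2)) z :=
    h4.cpow_const (Or.inl (by simp; linarith))
  have h6 : HasDerivAt (fun z : ℂ => z / (z + 2)) (2 / (z + 2) ^ 2) z := by
    have := (hasDerivAt_id z).div ((hasDerivAt_id z).add_const 2) h2
    refine this.congr_deriv ?_
    simp only [id]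
    congr 1
    ring
  have h7 : HasDerivAt (fun z : ℂ => Complex.exp (gf ω (z / (z + 2)))) (Complex.exp (gf ω (z / (z + 2))) * (Gs ω (z / (z + 2)) * (2 / (z + 2) ^ 2))) z := by
    have h9 := HasDerivAt.comp (h₂ := gf ω) z (gf_hasDeriv h (wd_norm hz)) h6
    exact h9.cexp
  have h8 := h5.mul h7
  refine h8.congr_deriv ?_
  unfold fi
  have e1 : (1 + z / 2) ^ (-(k : ℂ) - 1) = (1 + z / 2) ^ (-(k : ℂ)) * (2 / (z + 2)) := by
    rw [Complex.cpow_sub _ _ h3, Complex.cpow_one, div_eq_mul_inv]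
    congr 1
    rw [← one_div, div_eq_div_iff h3 h2]
    ring
  rw [e1]
  ring

/-- the function whose zeros are the solutions of `f' = a f` -/
noncomputable def ro (k : ℝ) (a : ℂ) (ω : ℕ → ℝ × ℝ) (z : ℂ) : ℂ := Gs ω (z / (z + 2)) - ((z + 2) ^ 2 * a + k * (z + 2)) / 2

lemma zero_iff (k : ℝ) (a : ℂ) {ω : ℕ → ℝ × ℝ} (h : Gd ω) {z : ℂ} (hz : -1 < z.re) : deriv (fi k ω) z = a * fi k ω z ↔ ro k a ω z = 0 := by
  have h2 := ne_two hz
  rw [(fi_hasDerivAt k h hz).deriv, mul_comm a, mul_right_inj' (fi_ne k ω hz)]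
  unfold ro
  constructor
  · intro h3
    rw [sub_eq_zero, eq_div_iff two_ne_zero]
    field_simp at h3
    linear_combination h3
  · intro h3
    rw [sub_eq_zero, eq_div_iff two_ne_zero] at h3
    field_simp
    linear_combination h3

lemma ro_tr (k : ℝ) (a : ℂ) {ω : ℕ → ℝ × ℝ} (h : Gd ω) (n : ℕ) (s : ℝ × ℝ) (h' : Gd (tr n s ω)) {z : ℂ} (hz : -1 < z.re) :
    ro k a (tr n s ω) z = ro k a ω z + nn s * ((Real.sqrt (n + 1) : ℂ) * (z / (z + 2)) ^ n) := by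
  unfold ro
  rw [Gs_tr h n s h' (wd_norm hz)]
  ring

/-- the half plane -/
def Hf : Set ℂ := {z | -1 < z.re}

lemma Hf_open : IsOpen Hf := isOpen_lt continuous_const Complex.continuous_re

lemma ro_diff (k : ℝ) (a : ℂ) {ω : ℕ → ℝ × ℝ} (h : Gd ω) : DifferentiableOn ℂ (ro k a ω) Hf := by
  intro z hz
  have h2 := ne_two hz
  have h3 : DifferentiableAt ℂ (fun z : ℂ => z / (z + 2)) z := differentiableAt_id.div (by fun_prop) h2
  have h4 : DifferentiableAt ℂ (Gs ω) (z / (z + 2)) := (Gs_diff h).differentiableAt (Metric.isOpen_ball.mem_nhds (by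
    rw [mem_ball_zero_iff]
    exact wd_norm hz))
  have h5 : DifferentiableAt ℂ (fun z => Gs ω (z / (z + 2))) z := DifferentiableAt.comp (g := Gs ω) z h4 h3
  exact (h5.sub (by fun_prop)).differentiableWithinAt

end Pool.Agent.X111.HP
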