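import Pool.Agent.X111.HP.Box
import Pool.Agent.X111.FL.One

set_option autoImplicit false
set_option linter.unusedSectionVars false

/-! Zeros of linear differential forms of zeta near the critical line, under the moment measures. -/

namespace Pool.Agent.X111.HP

open MeasureTheory ProbabilityTheory Filter Topology
open Pool.Agent.Y753.SHR
open Pool.Agent.H306R2 (aF aF_pos)
open Pool.Agent.X111.FL (jf iter_affine PG fi fi_zero Gd Gd_ae)
open Pool.Agent.X111.DL (zeta_an)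

/-- the heights with a zero of the form in the set -/
def Z (δ : ℝ) (c : ℕ → ℂ) (N : ℕ) (Q : Set ℂ) : Set ℝ := {t | ∃ z ∈ Q, Lc c N (jf δ t) z = 0}

/-- the event of a zero of the form of the limit field in the set -/
def Ev (k : ℝ) (c : ℕ → ℂ) (N : ℕ) (Q : Set ℂ) : Set (ℕ → ℝ × ℝ) := {ω | ∃ z ∈ Q, Lc c N (fi k ω) z = 0}

lemma null_of_lim {s : Set (ℕ → ℝ × ℝ)} {F : ℕ → (ℕ → ℝ × ℝ) → ℝ} (hF : ∀ n, AEStronglyMeasurable (F n) PG)
    (hlim : ∀ ω, Gd ω → Tendsto (fun n => F n ω) atTop (𝓝 (s.indicator (fun _ => (1:ℝ)) ω))) : NullMeasurableSet s PG := by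
  have hm : AEStronglyMeasurable (s.indicator fun _ => (1:ℝ)) PG := by
    refine aestronglyMeasurable_of_tendsto_ae atTop hF ?_
    filter_upwards [Gd_ae] with ω hω
    exact hlim ω hω
  have h1 := hm.aemeasurable.nullMeasurableSet_preimage (measurableSet_singleton (1:ℝ))
  have e1 : (s.indicator fun _ => (1:ℝ)) ⁻¹' {1} = s := by
    ext ω
    by_cases h : ω ∈ s
    · simp [h]
    · simp [h]
  rwa [e1] at h1

lemma real_of_lim {s : Set (ℕ → ℝ × ℝ)} {F : ℕ → (ℕ → ℝ × ℝ) → ℝ} (hF : ∀ n, AEStronglyMeasurable (F n) PG) (hb : ∀ n ω, Gd ω → ‖F n ω‖ ≤ 1)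
    (hlim : ∀ ω, Gd ω → Tendsto (fun n => F n ω) atTop (𝓝 (s.indicator (fun _ => (1:ℝ)) ω))) :
    Tendsto (fun n => ∫ ω, F n ω ∂PG) atTop (𝓝 (PG.real s)) := by
  have hm : AEStronglyMeasurable (s.indicator fun _ => (1:ℝ)) PG := by
    refine aestronglyMeasurable_of_tendsto_ae atTop hF ?_
    filter_upwards [Gd_ae] with ω hω
    exact hlim ω hω
  have hs : NullMeasurableSet s PG := by
    have h1 := hm.aemeasurable.nullMeasurableSet_preimage (measurableSet_singleton (1:ℝ))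
    have e1 : (s.indicator fun _ => (1:ℝ)) ⁻¹' {1} = s := by
      ext ω
      by_cases h : ω ∈ s
      · simp [h]
      · simp [h]
    rwa [e1] at h1
  have e2 : PG.real s = ∫ ω, s.indicator (fun _ => (1:ℝ)) ω ∂PG := by
    rw [integral_indicator₀ hs, setIntegral_const, smul_eq_mul, mul_one]
  rw [e2]
  refine tendsto_integral_of_dominated_convergence (fun _ => 1) hF (integrable_const _) (fun n => ?_) ?_
  · filter_upwards [Gd_ae] with ω hω
    exact hb n ω hω
  · filter_upwards [Gd_ae] with ω hω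
    exact hlim ω hω

section

variable {e R : ℝ}

/-- the upper functional -/
noncomputable def Up (k : ℝ) (Q : Set ℂ) (c : ℕ → ℂ) (N n : ℕ) (f : ℂ → ℂ) : ℝ := |max 0 (‖f 0‖ - n * mq Q c N f)| ^ (2 * k)

/-- the lower functional -/
noncomputable def Lo (k : ℝ) (U : Set ℂ) (c : ℕ → ℂ) (N n : ℕ) (f : ℂ → ℂ) : ℝ := |min ‖f 0‖ (n * GU U c N n f)| ^ (2 * k)

lemma ApD_zero_pt (h0 : (0:ℂ) ∈ E1 e R) : ApD (E1 e R) 1 (fun f => ‖f 0‖) := by
  have h1 := ApD_norm (LA_eval (D := E1 e R) (a := 0) (by simpa using h0))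
  simpa using h1

lemma ApD_Up {k : ℝ} (hk : 0 < k) (he : 0 < e) (he2 : 2 * e < 1) (hR : 0 < R) {Q : Set ℂ} (hQ : IsCompact Q) (hne : Q.Nonempty) (hQD : Q ⊆ E1 e R)
    (c : ℕ → ℂ) (N n : ℕ) : ApD (E1 e R) (2 * k) (Up k Q c N n) := by
  have hb := box he he2 hR
  refine ApD_pow hb.zero ?_ (by positivity)
  exact ApD_two hb.zero (ApD_zero_pt hb.zero) (ApD_mq hb.op hb.zero (seg he2 hR) c N hQ hne hQD) (φ := fun a b => max 0 (a - n * b)) (by fun_prop)
    (fun c a b hc => by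
      show max 0 (c * a - n * (c * b)) = c * max 0 (a - n * b)
      rw [mul_max_of_nonneg _ _ hc, mul_zero]
      congr 1
      ring)

lemma ApD_Lo {k : ℝ} (hk : 0 < k) (he : 0 < e) (he2 : 2 * e < 1) (hR : 0 < R) {U : Set ℂ} (hUD : U ⊆ E1 e R)
    (c : ℕ → ℂ) (N n : ℕ) : ApD (E1 e R) (2 * k) (Lo k U c N n) := by
  have hb := box he he2 hR
  refine ApD_pow hb.zero ?_ (by positivity)
  exact ApD_two hb.zero (ApD_zero_pt hb.zero) (ApD_GU hb.op hb.zero (seg he2 hR) hUD c N n) (φ := fun a b => min a (n * b)) (by fun_prop)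
    (fun c a b hc => by
      show min (c * a) (n * (c * b)) = c * min a (n * b)
      rw [mul_min_of_nonneg _ _ hc]
      congr 1
      ring)

lemma fi_hol (he : 0 < e) (he2 : 2 * e < 1) (hR : 0 < R) (k : ℝ) {ω : ℕ → ℝ × ℝ} (hω : Gd ω) : DifferentiableOn ℂ (fi k ω) (E1 e R) :=
  (fi_diff (box he he2 hR) k hω).mono (box he he2 hR).DK

lemma up_pt {k : ℝ} (hk : 0 < k) (he : 0 < e) (he2 : 2 * e < 1) (hR : 0 < R) {Q : Set ℂ} (hQ : IsCompact Q) (hne : Q.Nonempty) (hQD : Q ⊆ E1 e R)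
    (c : ℕ → ℂ) (N : ℕ) {ω : ℕ → ℝ × ℝ} (hω : Gd ω) :
    Tendsto (fun n : ℕ => Up k Q c N n (fi k ω)) atTop (𝓝 ((Ev k c N Q).indicator (fun _ => (1:ℝ)) ω)) := by
  have hb := box he he2 hR
  have hc : ContinuousOn (Lc c N (fi k ω)) Q := (Lc_an hb.op c N (fi_hol he he2 hR k hω)).continuousOn.mono hQD
  obtain ⟨z, hz, hzm⟩ := mq_attained hQ hne c N hc
  unfold Up
  simp_rw [fi_zero, norm_one]
  by_cases h : ω ∈ Ev k c N Q
  · obtain ⟨y, hy, hy0⟩ := h
    have h1 : mq Q c N (fi k ω) = 0 := by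
      refine le_antisymm ?_ (mq_nn _ _ _ _)
      have := mq_le c N (fi k ω) hy
      rwa [hy0, norm_zero] at this
    rw [Set.indicator_of_mem (show ω ∈ Ev k c N Q from ⟨y, hy, hy0⟩)]
    simp [h1]
  · rw [Set.indicator_of_notMem h]
    have h1 : 0 < mq Q c N (fi k ω) := by
      rw [hzm, norm_pos_iff]
      exact fun h2 => h ⟨z, hz, h2⟩
    obtain ⟨n0, hn0⟩ := exists_nat_ge (1 / mq Q c N (fi k ω))
    refine tendsto_const_nhds.congr' ?_
    filter_upwards [eventually_ge_atTop n0] with n hn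
    have h2 : 1 / mq Q c N (fi k ω) ≤ n := hn0.trans (by exact_mod_cast hn)
    rw [div_le_iff₀ h1] at h2
    rw [max_eq_left (by linarith), abs_zero, Real.zero_rpow (by positivity)]

lemma Ev_null {k : ℝ} (hk : 0 < k) (he : 0 < e) (he2 : 2 * e < 1) (hR : 0 < R) {Q : Set ℂ} (hQ : IsCompact Q) (hne : Q.Nonempty) (hQD : Q ⊆ E1 e R)
    (c : ℕ → ℂ) (N : ℕ) : NullMeasurableSet (Ev k c N Q) PG := by
  have hb := box he he2 hR
  exact null_of_lim (fun n => (Phi_int hb hk (ApD_Up hk he he2 hR hQ hne hQD c N n)).1.aestronglyMeasurable) fun ω hω => up_pt hk he he2 hR hQ hne hQD c N hω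

lemma lim_up {k : ℝ} (hk : 0 < k) (he : 0 < e) (he2 : 2 * e < 1) (hR : 0 < R) {Q : Set ℂ} (hQ : IsCompact Q) (hne : Q.Nonempty) (hQD : Q ⊆ E1 e R)
    (c : ℕ → ℂ) (N : ℕ) : Tendsto (fun n : ℕ => ∫ ω, Up k Q c N n (fi k ω) ∂PG) atTop (𝓝 (PG.real (Ev k c N Q))) := by
  have hb := box he he2 hR
  refine real_of_lim (fun n => (Phi_int hb hk (ApD_Up hk he he2 hR hQ hne hQD c N n)).1.aestronglyMeasurable) (fun n ω hω => ?_)
    fun ω hω => up_pt hk he he2 hR hQ hne hQD c N hω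
  unfold Up
  rw [fi_zero, norm_one, Real.norm_of_nonneg (by positivity)]
  refine Real.rpow_le_one (abs_nonneg _) ?_ (by positivity)
  rw [abs_of_nonneg (le_max_left _ _)]
  have := mq_nn Q c N (fi k ω)
  exact max_le zero_le_one (by nlinarith [(Nat.cast_nonneg n : (0:ℝ) ≤ n)])

/-- **Upper bound: compact sets.** -/
theorem up {k : ℝ} (hk : 0 < k) (hk2 : k ≤ 2) {δ : ℝ → ℝ} (hδ : Tendsto δ atTop (𝓝 0)) (hδL : Tendsto (fun T => δ T * Real.log T) atTop atTop)
    (c : ℕ → ℂ) (N : ℕ) {Q : Set ℂ} (hQ : IsCompact Q) (hQ1 : ∀ z ∈ Q, -1 < z.re) {ε : ℝ} (hε : 0 < ε) :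
    ∀ᶠ T in atTop, (2 * δ T) ^ (k ^ 2) / T * ∫ t in Set.Icc 0 T, (Z (δ T) c N Q).indicator (fun t => ‖jf (δ T) t 0‖ ^ (2 * k)) t ≤
      aF k * PG.real (Ev k c N Q) + ε := by
  have ha := aF_pos hk
  rcases Q.eq_empty_or_nonempty with hne | hne
  · refine Eventually.of_forall fun T => ?_
    have e1 : Z (δ T) c N Q = ∅ := by
      unfold Z
      rw [hne]
      simp
    rw [e1]
    simp only [Set.indicator_empty, integral_zero, mul_zero]
    positivity
  · obtain ⟨e, R, he, he2, hR, hQD⟩ := ex_box hQ hQ1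
    have hb := box he he2 hR
    have h1 := (lim_up hk he he2 hR hQ hne hQD c N).const_mul (aF k)
    obtain ⟨n, hn⟩ := (h1.eventually (gt_mem_nhds (show aF k * PG.real (Ev k c N Q) < aF k * PG.real (Ev k c N Q) + ε / 2 by linarith))).exists
    obtain ⟨h2, h3⟩ := main hb hk hk2 hδ hδL (ApD_Up hk he he2 hR hQ hne hQD c N n)
    filter_upwards [h2, h3.eventually (gt_mem_nhds (show aF k * ∫ ω, Up k Q c N n (fi k ω) ∂PG < aF k * ∫ ω, Up k Q c N n (fi k ω) ∂PG + ε / 2 by linarith)),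
      pos_path hδL, eventually_gt_atTop 0] with T h4 h5 hd hT
    have h6 : ∫ t in Set.Icc 0 T, (Z (δ T) c N Q).indicator (fun t => ‖jf (δ T) t 0‖ ^ (2 * k)) t ≤ ∫ t in Set.Icc 0 T, Up k Q c N n (jf (δ T) t) := by
      refine integral_mono_of_nonneg (Eventually.of_forall fun t => ?_) h4 (Eventually.of_forall fun t => ?_)
      · exact Set.indicator_nonneg (fun t _ => by positivity) t
      · show (Z (δ T) c N Q).indicator (fun t => ‖jf (δ T) t 0‖ ^ (2 * k)) t ≤ Up k Q c N n (jf (δ T) t)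
        by_cases h : t ∈ Z (δ T) c N Q
        · rw [Set.indicator_of_mem h]
          obtain ⟨y, hy, hy0⟩ := h
          have h1 : mq Q c N (jf (δ T) t) = 0 := by
            refine le_antisymm ?_ (mq_nn _ _ _ _)
            have := mq_le c N (jf (δ T) t) hy
            rwa [hy0, norm_zero] at this
          unfold Up
          rw [h1, mul_zero, sub_zero, max_eq_right (norm_nonneg _), abs_norm]
        · rw [Set.indicator_of_notMem h]
          unfold Up
          positivity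
    have h7 := mul_le_mul_of_nonneg_left h6 (show 0 ≤ (2 * δ T) ^ (k ^ 2) / T by positivity)
    linarith

/-! ### The lower bound -/

lemma Lc_jf (δ : ℝ) (c : ℕ → ℂ) (N : ℕ) (t : ℝ) (z : ℂ) :
    Lc c N (jf δ t) z = ∑ j ∈ Finset.range N, c j * ((δ : ℂ) ^ j * iteratedDeriv j riemannZeta (1 / 2 + δ + t * Complex.I + δ * z)) := by
  unfold Lc
  refine Finset.sum_congr rfl fun j _ => ?_
  have h1 := iter_affine riemannZeta (1 / 2 + δ + t * Complex.I) δ j z
  rw [← h1]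
  rfl

lemma Z_closed (hb : Dm (E1 e R) (E2 e R) e e (1 + R + e)) {δ : ℝ} (hδ0 : 0 < δ) (hδ : δ * (1 + R + e) < 1 / 2) (c : ℕ → ℂ) (N : ℕ) {K : Set ℂ}
    (hK : IsCompact K) (hKD : K ⊆ E1 e R) : IsClosed (Z δ c N K) := by
  have : CompactSpace K := isCompact_iff_compactSpace.mp hK
  have hcont : Continuous fun p : ℝ × K => Lc c N (jf δ p.1) p.2 := by
    simp_rw [Lc_jf]
    refine continuous_finsetSum _ fun j _ => continuous_const.mul (continuous_const.mul ?_)
    rw [continuous_iff_continuousAt]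
    intro p
    have hne := jf_ne hb hδ0 hδ (hb.DK (hKD p.2.2)) p.1
    have h1 : ContinuousAt (iteratedDeriv j riemannZeta) (1 / 2 + δ + p.1 * Complex.I + δ * (p.2 : ℂ)) := ((zeta_an j) _ hne).continuousAt
    exact h1.comp (f := fun p : ℝ × K => (1 / 2 + δ + p.1 * Complex.I + δ * (p.2 : ℂ) : ℂ)) (by fun_prop)
  have h1 : IsClosed {p : ℝ × K | Lc c N (jf δ p.1) p.2 = 0} := isClosed_eq hcont continuous_const
  have h2 := (isClosedMap_fst_of_compactSpace (X := ℝ) (Y := K)) _ h1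
  convert h2 using 1
  ext t
  constructor
  · rintro ⟨z, hz, hz0⟩
    exact ⟨(t, ⟨z, hz⟩), hz0, rfl⟩
  · rintro ⟨⟨t', z⟩, hz0, rfl⟩
    exact ⟨z, z.2, hz0⟩

lemma Z_meas (hb : Dm (E1 e R) (E2 e R) e e (1 + R + e)) {δ : ℝ} (hδ0 : 0 < δ) (hδ : δ * (1 + R + e) < 1 / 2) (c : ℕ → ℂ) (N : ℕ) {U : Set ℂ}
    (hU : IsOpen U) (hUD : U ⊆ E1 e R) : MeasurableSet (Z δ c N U) := by
  classical
  have h1 : Z δ c N U = ⋃ n : ℕ, (if Metric.closedBall (ds n).1 (ds n).2 ⊆ U then Z δ c N (Metric.closedBall (ds n).1 (ds n).2) else ∅) := by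
    ext t
    rw [Set.mem_iUnion]
    constructor
    · rintro ⟨z, hz, hz0⟩
      obtain ⟨r, hr, hr2⟩ := Metric.nhds_basis_closedBall.mem_iff.mp (hU.mem_nhds hz)
      obtain ⟨n, hn⟩ := ds_dense (P := Metric.ball z (r / 4) ×ˢ Set.Ioo (r / 4) (r / 2)) (Metric.isOpen_ball.prod isOpen_Ioo)
        ⟨(z, r / 3), Metric.mem_ball_self (by positivity), by constructor <;> linarith⟩
      obtain ⟨hn1, hn2⟩ := hn
      rw [Metric.mem_ball] at hn1
      have hsub : Metric.closedBall (ds n).1 (ds n).2 ⊆ U := by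
        refine Set.Subset.trans (fun y hy => ?_) hr2
        rw [Metric.mem_closedBall] at hy ⊢
        linarith [dist_triangle y (ds n).1 z, hn2.2]
      refine ⟨n, ?_⟩
      rw [if_pos hsub]
      refine ⟨z, ?_, hz0⟩
      rw [Metric.mem_closedBall, dist_comm]
      linarith [hn2.1]
    · rintro ⟨n, hn⟩
      split_ifs at hn with h
      · obtain ⟨z, hz, hz0⟩ := hn
        exact ⟨z, h hz, hz0⟩
      · exact hn.elim
  rw [h1]
  refine MeasurableSet.iUnion fun n => ?_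
  split_ifs with h
  · exact (Z_closed hb hδ0 hδ c N (isCompact_closedBall _ _) (h.trans hUD)).measurableSet
  · exact MeasurableSet.empty

lemma lim_lo {k : ℝ} (hk : 0 < k) (he : 0 < e) (he2 : 2 * e < 1) (hR : 0 < R) {U : Set ℂ} (hUo : IsOpen U) (hUD : U ⊆ E1 e R)
    (c : ℕ → ℂ) (N : ℕ) (hnd : ∀ᵐ ω ∂PG, Lc c N (fi k ω) 0 ≠ 0) :
    Tendsto (fun n : ℕ => ∫ ω, Lo k U c N n (fi k ω) ∂PG) atTop (𝓝 (PG.real (Ev k c N U))) := by
  have hb := box he he2 hR
  -- the event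
  have hconv : IsPreconnected (E1 e R) := by
    have h1 : Convex ℝ (E1 e R) := by
      have e1 : E1 e R = (Complex.reLm ⁻¹' Set.Ioo (-1 + 2 * e) R) ∩ (Complex.imLm ⁻¹' Set.Ioo (-R) R) := by
        ext z
        simp only [E1, Set.mem_ofPred_eq, Set.mem_inter_iff, Set.mem_preimage, Set.mem_Ioo, Complex.reLm_coe, Complex.imLm_coe, abs_lt]
        tauto
      rw [e1]
      exact ((convex_Ioo _ _).linear_preimage _).inter ((convex_Ioo _ _).linear_preimage _)
    exact h1.isPreconnected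
  have hev : PG.real (Ev k c N U) = PG.real {ω | ∃ n, 0 < gU U c N n (fi k ω)} := by
    refine measureReal_congr ?_
    filter_upwards [Gd_ae, hnd] with ω hω h0
    refine propext ⟨fun h => ?_, fun h => ?_⟩
    · obtain ⟨z1, hz1, hz0⟩ := h
      refine gU_of_zero hb.op hUo hUD (fi_hol he he2 hR k hω) hz1 hz0 fun hloc => ?_
      have h2 := (Lc_an hb.op c N (fi_hol he he2 hR k hω)).eqOn_zero_of_preconnected_of_eventuallyEq_zero hconv (hUD hz1) hloc hb.zero
      exact h0 h2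
    · obtain ⟨n, hn⟩ := h
      exact zero_of_gU hb.op hUD (fi_hol he he2 hR k hω) hn
  rw [hev]
  refine real_of_lim (fun n => (Phi_int hb hk (ApD_Lo hk he he2 hR hUD c N n)).1.aestronglyMeasurable) (fun n ω hω => ?_) fun ω hω => ?_
  · unfold Lo
    rw [fi_zero, norm_one, Real.norm_of_nonneg (by positivity)]
    refine Real.rpow_le_one (abs_nonneg _) ?_ (by positivity)
    have h1 : 0 ≤ (n : ℝ) * GU U c N n (fi k ω) := mul_nonneg (Nat.cast_nonneg n) (GU_nn _ _ _ _ _)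
    rw [abs_of_nonneg (le_min zero_le_one h1)]
    exact min_le_left _ _
  · unfold Lo
    simp_rw [fi_zero, norm_one]
    by_cases h : ∃ n, 0 < gU U c N n (fi k ω)
    · rw [Set.indicator_of_mem (show ω ∈ {ω | ∃ n, 0 < gU U c N n (fi k ω)} from h)]
      obtain ⟨i, hi⟩ := h
      obtain ⟨n0, hn0⟩ := exists_nat_ge (1 / gU U c N i (fi k ω))
      refine tendsto_const_nhds.congr' ?_
      filter_upwards [eventually_ge_atTop n0, eventually_gt_atTop i] with n hn hn2
      have h2 : 1 / gU U c N i (fi k ω) ≤ n := hn0.trans (by exact_mod_cast hn)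
      rw [div_le_iff₀ hi] at h2
      have h3 : (n : ℝ) * gU U c N i (fi k ω) ≤ n * GU U c N n (fi k ω) := mul_le_mul_of_nonneg_left (GU_ge _ hn2) (Nat.cast_nonneg n)
      rw [min_eq_left (by linarith), abs_one, Real.one_rpow]
    · rw [Set.indicator_of_notMem (show ω ∉ {ω | ∃ n, 0 < gU U c N n (fi k ω)} from h)]
      refine tendsto_const_nhds.congr fun n => ?_
      have h2 : GU U c N n (fi k ω) = 0 := by
        refine le_antisymm ?_ (GU_nn _ _ _ _ _)
        by_contra hcon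
        push Not at hcon
        exact h (GU_pos hcon)
      rw [h2, mul_zero, min_eq_right zero_le_one, abs_zero, Real.zero_rpow (by positivity)]

/-- **Lower bound: open sets.** -/
theorem lo {k : ℝ} (hk : 0 < k) (hk2 : k ≤ 2) {δ : ℝ → ℝ} (hδ : Tendsto δ atTop (𝓝 0)) (hδL : Tendsto (fun T => δ T * Real.log T) atTop atTop)
    (c : ℕ → ℂ) (N : ℕ) (hnd : ∀ᵐ ω ∂PG, Lc c N (fi k ω) 0 ≠ 0) {U Q : Set ℂ} (hUo : IsOpen U) (hUQ : U ⊆ Q) (hQ : IsCompact Q)
    (hQ1 : ∀ z ∈ Q, -1 < z.re) {ε : ℝ} (hε : 0 < ε) :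
    ∀ᶠ T in atTop, aF k * PG.real (Ev k c N U) - ε ≤
      (2 * δ T) ^ (k ^ 2) / T * ∫ t in Set.Icc 0 T, (Z (δ T) c N U).indicator (fun t => ‖jf (δ T) t 0‖ ^ (2 * k)) t := by
  obtain ⟨e, R, he, he2, hR, hQD⟩ := ex_box hQ hQ1
  have hb := box he he2 hR
  have hUD : U ⊆ E1 e R := hUQ.trans hQD
  have h1 := (lim_lo hk he he2 hR hUo hUD c N hnd).const_mul (aF k)
  obtain ⟨n, hn⟩ := (h1.eventually (lt_mem_nhds (show aF k * PG.real (Ev k c N U) - ε / 2 < aF k * PG.real (Ev k c N U) by linarith))).exists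
  obtain ⟨h2, h3⟩ := main hb hk hk2 hδ hδL (ApD_Lo hk he he2 hR hUD c N n)
  have hMδ : Tendsto (fun T => δ T * (1 + R + e)) atTop (𝓝 0) := by
    have := hδ.mul_const (1 + R + e)
    rwa [zero_mul] at this
  filter_upwards [h2, h3.eventually (lt_mem_nhds (show aF k * ∫ ω, Lo k U c N n (fi k ω) ∂PG - ε / 2 < aF k * ∫ ω, Lo k U c N n (fi k ω) ∂PG by linarith)),
    pos_path hδL, eventually_gt_atTop 0, hMδ.eventually (gt_mem_nhds (show (0:ℝ) < 1 / 2 by norm_num))] with T h4 h5 hd hT hMT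
  have hint : IntegrableOn ((Z (δ T) c N U).indicator (fun t => ‖jf (δ T) t 0‖ ^ (2 * k))) (Set.Icc 0 T) := by
    have hc : Continuous fun t => ‖jf (δ T) t 0‖ ^ (2 * k) := by
      have h6 : Continuous fun t : ℝ => jf (δ T) t 0 := by
        rw [continuous_iff_continuousAt]
        intro t
        have hne := jf_ne hb hd hMT (hb.DK hb.zero) t
        have h7 : ContinuousAt riemannZeta (1 / 2 + δ T + t * Complex.I + δ T * (0:ℂ)) := (differentiableAt_riemannZeta hne).continuousAt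
        exact h7.comp (f := fun t : ℝ => (1 / 2 + δ T + t * Complex.I + δ T * (0:ℂ) : ℂ)) (by fun_prop)
      exact h6.norm.rpow_const fun _ => Or.inr (by positivity)
    exact (hc.continuousOn.integrableOn_compact isCompact_Icc).indicator (Z_meas hb hd hMT c N hUo hUD)
  have h6 : ∫ t in Set.Icc 0 T, Lo k U c N n (jf (δ T) t) ≤ ∫ t in Set.Icc 0 T, (Z (δ T) c N U).indicator (fun t => ‖jf (δ T) t 0‖ ^ (2 * k)) t := by
    refine integral_mono h4 hint fun t => ?_
    show Lo k U c N n (jf (δ T) t) ≤ (Z (δ T) c N U).indicator (fun t => ‖jf (δ T) t 0‖ ^ (2 * k)) t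
    by_cases h : ∃ i, 0 < gU U c N i (jf (δ T) t)
    · obtain ⟨i, hi⟩ := h
      have hz := zero_of_gU hb.op hUD (jf_diff hb hd hMT t hb.DK) hi
      rw [Set.indicator_of_mem (show t ∈ Z (δ T) c N U from hz)]
      unfold Lo
      have h1 : 0 ≤ (n : ℝ) * GU U c N n (jf (δ T) t) := mul_nonneg (Nat.cast_nonneg n) (GU_nn _ _ _ _ _)
      rw [abs_of_nonneg (le_min (norm_nonneg _) h1)]
      exact Real.rpow_le_rpow (le_min (norm_nonneg _) h1) (min_le_left _ _) (by positivity)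
    · have h2 : GU U c N n (jf (δ T) t) = 0 := by
        refine le_antisymm ?_ (GU_nn _ _ _ _ _)
        by_contra hcon
        push Not at hcon
        exact h (GU_pos hcon)
      unfold Lo
      rw [h2, mul_zero, min_eq_right (norm_nonneg _), abs_zero, Real.zero_rpow (by positivity)]
      exact Set.indicator_nonneg (fun t _ => by positivity) t
  have h7 := mul_le_mul_of_nonneg_left h6 (show 0 ≤ (2 * δ T) ^ (k ^ 2) / T by positivity)
  linarith

end

end Pool.Agent.X111.HP
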